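import Pool.Agent.Lib.Common.Subspace.Fil

/-! Elimination of one variable along a relation, keeping divisibility. -/

namespace Pool.Agent.Lib.Common.ZeroLemma

open MvPolynomial Finset Pool.Agent.Lib.Common.Subspace

variable {σ : Type*} [DecidableEq σ]

/-- a multivariate polynomial as a polynomial in the variable `t` -/
noncomputable def elToP (t : σ) : MvPolynomial σ ℚ →ₐ[ℚ] Polynomial (MvPolynomial σ ℚ) :=
  aeval (fun s => if s = t then Polynomial.X else Polynomial.C (X s))

theorem el_toP_monomial (t : σ) (μ : σ →₀ ℕ) (c : ℚ) :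
    elToP t (monomial μ c) = Polynomial.monomial (μ t) (monomial (μ.erase t) c) := by
  have h1 : ∀ ν : σ →₀ ℕ, ν t = 0 → elToP t (monomial ν c) = Polynomial.C (monomial ν c) := by
    intro ν hν
    rw [elToP, aeval_monomial, monomial_eq, map_mul, Finsupp.prod, Finsupp.prod, map_prod]
    congr 1
    refine Finset.prod_congr rfl fun s hs => ?_
    have : s ≠ t := by
      rintro rfl
      exact Finsupp.mem_support_iff.1 hs hν
    rw [if_neg this, map_pow]
  have h2 : monomial μ c = monomial (μ.erase t) c * X t ^ μ t := by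
    rw [X_pow_eq_monomial, monomial_mul, mul_one, Finsupp.erase_add_single]
  rw [h2, map_mul, h1 _ Finsupp.erase_same, map_pow, elToP, aeval_X, if_pos rfl,
    Polynomial.C_mul_X_pow_eq_monomial]

theorem el_coeff_eq (t : σ) (P : MvPolynomial σ ℚ) (k : ℕ) :
    (elToP t P).coeff k =
      ∑ μ ∈ P.support.filter (fun μ => μ t = k), monomial (μ.erase t) (coeff μ P) := by
  conv_lhs => rw [P.as_sum, map_sum, Polynomial.finsetSum_coeff]
  rw [Finset.sum_filter]
  refine Finset.sum_congr rfl fun μ _ => ?_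
  rw [el_toP_monomial, Polynomial.coeff_monomial]

theorem el_supp (t : σ) (P : MvPolynomial σ ℚ) (k : ℕ) :
    ∀ ν ∈ ((elToP t P).coeff k).support, ∃ μ ∈ P.support, μ t = k ∧ ν = μ.erase t := by
  intro ν hν
  rw [el_coeff_eq] at hν
  obtain ⟨μ, hμ, h2⟩ := Finset.mem_biUnion.mp (support_sum hν)
  exact ⟨μ, (Finset.mem_filter.mp hμ).1, (Finset.mem_filter.mp hμ).2,
    Finset.mem_singleton.mp (support_monomial_subset h2)⟩

theorem el_isInt (t : σ) {P : MvPolynomial σ ℚ} (hP : IsInt P) (k : ℕ) :
    IsInt ((elToP t P).coeff k) := by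
  rw [el_coeff_eq]
  refine isInt_sum _ _ fun μ _ => ?_
  obtain ⟨z, hz⟩ := hP μ
  rw [hz]
  exact isInt_monomial _ _

theorem el_sum_len (t : σ) (P : MvPolynomial σ ℚ) (T : Finset ℕ) :
    ∑ k ∈ T, len ((elToP t P).coeff k) ≤ len P := by
  have h1 : ∀ k, len ((elToP t P).coeff k) ≤
      ∑ μ ∈ P.support.filter (fun μ => μ t = k), |((coeff μ P : ℚ) : ℝ)| := by
    intro k
    rw [el_coeff_eq]
    refine (nrm_sum_le (fun _ => zero_le_one) _ _).trans (le_of_eq ?_)
    refine Finset.sum_congr rfl fun μ _ => ?_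
    rw [nrm_monomial]
    simp [Finsupp.prod, Rat.AbsoluteValue.real_eq_abs]
  refine (Finset.sum_le_sum fun k _ => h1 k).trans ?_
  rw [Finset.sum_fiberwise_eq_sum_filter, len_eq]
  exact Finset.sum_le_sum_of_subset_of_nonneg (Finset.filter_subset _ _) fun _ _ _ => abs_nonneg _

theorem el_natDegree_le (t : σ) {P : MvPolynomial σ ℚ} {p : ℕ} (h : ∀ μ ∈ P.support, μ t ≤ p) :
    (elToP t P).natDegree ≤ p := by
  rw [Polynomial.natDegree_le_iff_coeff_eq_zero]
  intro k hk
  rw [el_coeff_eq]
  refine Finset.sum_eq_zero fun μ hμ => ?_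
  have h1 := Finset.mem_filter.mp hμ
  have h2 := h μ h1.1
  omega

theorem el_toP_free (t : σ) {P : MvPolynomial σ ℚ} (h : ∀ μ ∈ P.support, μ t = 0) :
    elToP t P = Polynomial.C P := by
  conv_lhs => rw [P.as_sum, map_sum]
  conv_rhs => rw [P.as_sum, map_sum]
  refine Finset.sum_congr rfl fun μ hμ => ?_
  rw [el_toP_monomial, h μ hμ, Finsupp.erase_of_notMem_support (by simp [h μ hμ])]
  rfl

theorem el_toP_coeff (t : σ) (P : MvPolynomial σ ℚ) (k : ℕ) :
    elToP t ((elToP t P).coeff k) = Polynomial.C ((elToP t P).coeff k) := by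
  refine el_toP_free t fun ν hν => ?_
  obtain ⟨μ, -, -, rfl⟩ := el_supp t P k ν hν
  exact Finsupp.erase_same

theorem el_eval (t : σ) (P : MvPolynomial σ ℚ) : (elToP t P).eval (X t) = P := by
  induction P using MvPolynomial.induction_on' with
  | monomial μ c =>
    rw [el_toP_monomial, Polynomial.eval_monomial, X_pow_eq_monomial, monomial_mul, mul_one,
      Finsupp.erase_add_single]
  | add p q hp hq => rw [map_add, Polynomial.eval_add, hp, hq]

theorem el_pderiv (t : σ) (P : MvPolynomial σ ℚ) :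
    (Polynomial.derivative (elToP t P)).eval (X t) = pderiv t P := by
  induction P using MvPolynomial.induction_on' with
  | monomial μ c =>
    rw [el_toP_monomial, Polynomial.derivative_monomial, Polynomial.eval_monomial,
      pderiv_monomial, X_pow_eq_monomial, ← map_natCast (C : ℚ →+* MvPolynomial σ ℚ),
      mul_comm (monomial _ _) (C _), C_mul_monomial, monomial_mul, mul_one, mul_comm c]
    congr 2
    ext s
    by_cases hs : s = t
    · subst hs
      simp
    · simp [Finsupp.erase_ne hs, Finsupp.single_eq_of_ne hs]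
  | add p q hp hq => rw [map_add, map_add, Polynomial.eval_add, hp, hq, map_add]

omit [DecidableEq σ] in
/-- the norm of a determinant is at most the product of the column norms -/
theorem el_len_det {n : Type*} [Fintype n] [DecidableEq n] (A : Matrix n n (MvPolynomial σ ℚ)) :
    len A.det ≤ ∏ j, ∑ i, len (A i j) := by
  rw [Matrix.det_apply]
  refine (nrm_sum_le (fun _ => zero_le_one) _ _).trans ?_
  have h1 : ∀ g : Equiv.Perm n, nrm Rat.AbsoluteValue.real (fun _ => 1)
      (Equiv.Perm.sign g • ∏ i, A (g i) i) ≤ ∏ i, len (A (g i) i) := by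
    intro g
    have h2 : nrm Rat.AbsoluteValue.real (fun _ => 1) (Equiv.Perm.sign g • ∏ i, A (g i) i) =
        nrm Rat.AbsoluteValue.real (fun _ => 1) (∏ i, A (g i) i) := by
      rcases Int.units_eq_one_or (Equiv.Perm.sign g) with h | h <;> simp [h, nrm_neg]
    rw [h2]
    exact nrm_prod_le (fun _ => zero_le_one) _ _
  refine (Finset.sum_le_sum fun g _ => h1 g).trans ?_
  rw [Finset.prod_univ_sum]
  have h3 : ∑ g : Equiv.Perm n, ∏ i, len (A (g i) i) =
      ∑ f ∈ (Finset.univ : Finset (Equiv.Perm n)).image (fun g : Equiv.Perm n => (g : n → n)),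
        ∏ i, len (A (f i) i) := by
    rw [Finset.sum_image]
    intro g _ g' _ h
    exact DFunLike.coe_injective h
  rw [h3]
  exact Finset.sum_le_sum_of_subset_of_nonneg (fun f _ => by simp)
    fun f _ _ => Finset.prod_nonneg fun i _ => len_nonneg _

omit [DecidableEq σ] in
theorem el_col_le {N : ℕ} (q : Polynomial (MvPolynomial σ ℚ)) (j n : ℕ) (b : ℝ)
    (hb : ∀ T : Finset ℕ, ∑ k ∈ T, len (q.coeff k) ≤ b) :
    ∑ i : Fin N, len (if (i : ℕ) ∈ Set.Icc j (j + n) then q.coeff (i - j) else 0) ≤ b := by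
  classical
  have h1 : ∑ i : Fin N, len (if (i : ℕ) ∈ Set.Icc j (j + n) then q.coeff (i - j) else 0) =
      ∑ i ∈ (Finset.univ : Finset (Fin N)).filter (fun i : Fin N => (i : ℕ) ∈ Set.Icc j (j + n)),
        len (q.coeff (i - j)) := by
    rw [Finset.sum_filter]
    refine Finset.sum_congr rfl fun i _ => ?_
    split_ifs
    · rfl
    · exact nrm_zero
  rw [h1, ← Finset.sum_image (g := fun i : Fin N => (i : ℕ) - j) (f := fun k => len (q.coeff k))]
  · exact hb _
  · intro i hi i' hi' h
    have h2 := (Finset.mem_filter.mp (Finset.mem_coe.mp hi)).2.1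
    have h3 := (Finset.mem_filter.mp (Finset.mem_coe.mp hi')).2.1
    simp only at h
    exact Fin.ext (by omega)

theorem el_dvd_coeff {S : Type*} [CommRing S] [IsDomain S] {χ : Polynomial S} (h0 : χ ≠ 0) {γ : S}
    (hγ : γ ≠ 0) (h : χ.eval γ = 0) : ∃ k, χ.coeff k ≠ 0 ∧ γ ∣ χ.coeff k := by
  obtain ⟨ψ, h1, h2⟩ := Polynomial.exists_eq_pow_rootMultiplicity_mul_and_not_dvd χ h0 0
  rw [map_zero, sub_zero] at h1 h2
  generalize Polynomial.rootMultiplicity 0 χ = k at h1
  have h3 : χ.coeff k = ψ.coeff 0 := by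
    rw [h1]
    simpa using Polynomial.coeff_X_pow_mul ψ k 0
  refine ⟨k, ?_, ?_⟩
  · rw [h3]
    exact fun h4 => h2 (Polynomial.X_dvd_iff.2 h4)
  · rw [h1, Polynomial.eval_mul, Polynomial.eval_pow, Polynomial.eval_X] at h
    have h4 := (mul_eq_zero.1 h).resolve_left (pow_ne_zero _ hγ)
    rw [← Polynomial.X_mul_divX_add ψ, Polynomial.eval_add, Polynomial.eval_mul, Polynomial.eval_X,
      Polynomial.eval_C] at h4
    rw [h3]
    exact ⟨-(ψ.divX.eval γ), by linear_combination h4⟩

theorem el_res_ne_zero {S : Type*} [CommRing S] [IsDomain S] {f g : Polynomial S} (hf : f ≠ 0)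
    {p : ℕ} (hg : g.natDegree ≤ p) :
    Polynomial.resultant (f.map Polynomial.C) (g.map Polynomial.C - Polynomial.C Polynomial.X)
      f.natDegree p ≠ 0 := by
  classical
  let L := AlgebraicClosure (FractionRing S)
  let ι : S →+* L := (algebraMap (FractionRing S) L).comp (algebraMap S (FractionRing S))
  have hι : Function.Injective ι :=
    (algebraMap (FractionRing S) L).injective.comp (IsFractionRing.injective S (FractionRing S))
  obtain ⟨c, hc⟩ := Infinite.exists_notMem_finset
    (((f.map ι).roots.map (g.map ι).eval).toFinset)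
  intro h
  have h1 := congrArg (Polynomial.eval₂RingHom ι c) h
  rw [← Polynomial.resultant_map_map, map_zero, Polynomial.map_map, Polynomial.map_sub,
    Polynomial.map_map, Polynomial.map_C] at h1
  have h2 : (Polynomial.eval₂RingHom ι c).comp Polynomial.C = ι := by
    ext a
    simp
  rw [h2, ← Polynomial.natDegree_map_eq_of_injective hι f,
    Polynomial.resultant_eq_prod_eval _ _ _ ?_ (IsAlgClosed.splits _)] at h1
  · rcases mul_eq_zero.1 h1 with h3 | h3
    · exact (Polynomial.map_ne_zero_iff hι).2 hf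
        (Polynomial.leadingCoeff_eq_zero.1 (eq_zero_of_pow_eq_zero h3))
    · rw [Multiset.prod_eq_zero_iff, Multiset.mem_map] at h3
      obtain ⟨a, ha, h4⟩ := h3
      apply hc
      rw [Multiset.mem_toFinset, Multiset.mem_map]
      refine ⟨a, ha, ?_⟩
      simpa [sub_eq_zero] using h4
  · rw [Polynomial.natDegree_sub_C]
    exact Polynomial.natDegree_map_le.trans hg

/-- The characteristic polynomial of `G` along the relation `φ`, in the variable `t`. -/
theorem elim_core {S : Type*} [CommRing S] [IsDomain S] (ev : MvPolynomial σ ℚ →+* S) (t : σ)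
    {φ G : MvPolynomial σ ℚ} (hφi : IsInt φ) (hGi : IsInt G) (dφ dG : σ → ℕ)
    (hdφ : ∀ μ ∈ φ.support, ∀ s, μ s ≤ dφ s) (hdG : ∀ μ ∈ G.support, ∀ s, μ s ≤ dG s)
    (hφ : ev φ = 0) (hφ' : (elToP t φ).map ev ≠ 0) :
    ∃ χ : MvPolynomial σ ℚ, IsInt χ ∧ (elToP t χ).map ev ≠ 0 ∧
      ((elToP t χ).map ev).eval (ev G) = 0 ∧
      (∀ μ ∈ χ.support, ∀ s, s ≠ t → μ s ≤ dφ t * dG s + dG t * dφ s) ∧
      len χ ≤ len φ ^ dG t * (len G + 1) ^ dφ t := by
  set f := (elToP t φ).map ev with hf
  set g := (elToP t G).map ev with hg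
  have hev : ∀ q : Polynomial (MvPolynomial σ ℚ), (q.map ev).eval (ev (X t)) = ev (q.eval (X t)) :=
    fun q => by rw [Polynomial.eval_map, Polynomial.eval₂_hom]
  have hf0 : f ≠ 0 := hφ'
  have hfτ : f.eval (ev (X t)) = 0 := by rw [hf, hev, el_eval, hφ]
  have hgτ : g.eval (ev (X t)) = ev G := by rw [hg, hev, el_eval]
  have hb0 : f.natDegree ≠ 0 := by
    intro h
    rw [Polynomial.eq_C_of_natDegree_eq_zero h, Polynomial.eval_C] at hfτ
    apply hf0
    rw [Polynomial.eq_C_of_natDegree_eq_zero h, hfτ, map_zero]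
  have hb : f.natDegree ≤ dφ t :=
    Polynomial.natDegree_map_le.trans (el_natDegree_le t fun μ hμ => hdφ μ hμ t)
  have hp : g.natDegree ≤ dG t :=
    Polynomial.natDegree_map_le.trans (el_natDegree_le t fun μ hμ => hdG μ hμ t)
  set χ := Polynomial.resultant (elToP t φ) (elToP t G - Polynomial.C (X t)) f.natDegree (dG t)
    with hχ
  let Φ : MvPolynomial σ ℚ →+* Polynomial S :=
    (Polynomial.mapRingHom ev).comp (elToP t).toRingHom
  have hΦ : ∀ P, Φ P = (elToP t P).map ev := fun P => rfl
  have hmap : ∀ P, (elToP t P).map Φ = ((elToP t P).map ev).map Polynomial.C := by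
    intro P
    ext1 k
    rw [Polynomial.coeff_map, Polynomial.coeff_map, Polynomial.coeff_map, hΦ, el_toP_coeff,
      Polynomial.map_C]
  have hΦχ : Φ χ = Polynomial.resultant (f.map Polynomial.C)
      (g.map Polynomial.C - Polynomial.C Polynomial.X) f.natDegree (dG t) := by
    rw [hχ, ← Polynomial.resultant_map_map, Polynomial.map_sub, hmap, hmap, Polynomial.map_C,
      hΦ (X t), elToP, aeval_X, if_pos rfl, Polynomial.map_X]
    rfl
  have h1 : Φ χ ≠ 0 := by
    rw [hΦχ]
    exact el_res_ne_zero hf0 hp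
  have h2 : (Φ χ).eval (ev G) = 0 := by
    have h3 : ∀ q : Polynomial S,
        (q.map Polynomial.C).map (Polynomial.evalRingHom (ev G)) = q := by
      intro q
      ext1 i
      simp
    rw [hΦχ, ← Polynomial.coe_evalRingHom, ← Polynomial.resultant_map_map, Polynomial.map_sub,
      h3, h3, Polynomial.map_C, Polynomial.coe_evalRingHom, Polynomial.eval_X]
    obtain ⟨u, v, -, -, h4⟩ := Polynomial.exists_mul_add_mul_eq_C_resultant (n := dG t) f
      (g - Polynomial.C (ev G)) le_rfl (by rw [Polynomial.natDegree_sub_C]; exact hp) (Or.inl hb0)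
    have h5 := congrArg (Polynomial.eval (ev (X t))) h4
    simp only [Polynomial.eval_add, Polynomial.eval_mul, Polynomial.eval_sub, Polynomial.eval_C,
      hfτ, hgτ, sub_self, zero_mul, add_zero] at h5
    exact h5.symm
  have hq : ∀ i, (elToP t G - Polynomial.C (X t)).coeff i =
      (elToP t G).coeff i - if i = 0 then X t else 0 := fun i => by
    rw [Polynomial.coeff_sub, Polynomial.coeff_C]
  refine ⟨χ, ?_, h1, h2, ?_, ?_⟩
  · refine isInt_det _ fun i j => ?_
    induction j using Fin.addCases with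
    | left j =>
      rw [Polynomial.sylvester, Matrix.of_apply, Fin.addCases_left]
      split_ifs
      · rw [hq, sub_eq_add_neg]
        refine (el_isInt t hGi _).add (IsInt.neg ?_)
        split_ifs
        · exact isInt_X t
        · exact isInt_zero
      · exact isInt_zero
    | right j =>
      rw [Polynomial.sylvester, Matrix.of_apply, Fin.addCases_right]
      split_ifs
      · exact el_isInt t hφi _
      · exact isInt_zero
  · intro μ hμ s hs
    have hfil : ∀ (P : MvPolynomial σ ℚ) (d : ℕ), (∀ μ ∈ P.support, μ s ≤ d) → ∀ i,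
        InFil (Pi.single s (-1)) (-(d : ℝ)) ((elToP t P).coeff i) := by
      intro P d hd i ν hν
      obtain ⟨μ, hμ, -, rfl⟩ := el_supp t P i ν hν
      rw [Finsupp.weight_single_index, Finsupp.erase_ne hs, nsmul_eq_mul]
      have : (μ s : ℝ) ≤ d := by exact_mod_cast hd μ hμ
      linarith
    have h3 := inFil_det (ω := Pi.single s (-1))
      (Polynomial.sylvester (elToP t φ) (elToP t G - Polynomial.C (X t)) f.natDegree (dG t))
      (fun j => j.addCases (fun _ => -(dG s : ℝ)) (fun _ => -(dφ s : ℝ))) (by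
        intro i j
        induction j using Fin.addCases with
        | left j =>
          rw [Polynomial.sylvester, Matrix.of_apply, Fin.addCases_left, Fin.addCases_left]
          split_ifs
          · rw [hq, sub_eq_add_neg]
            refine (hfil G _ (fun μ hμ => hdG μ hμ s) _).add (InFil.neg ?_)
            split_ifs
            · refine (inFil_X t).mono ?_
              rw [Pi.single_eq_of_ne (Ne.symm hs)]
              simp
            · exact inFil_zero _
          · exact inFil_zero _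
        | right j =>
          rw [Polynomial.sylvester, Matrix.of_apply, Fin.addCases_right, Fin.addCases_right]
          split_ifs
          · exact hfil φ _ (fun μ hμ => hdφ μ hμ s) _
          · exact inFil_zero _) μ hμ
    rw [Finsupp.weight_single_index, Fin.sum_univ_add] at h3
    simp only [Fin.addCases_left, Fin.addCases_right, Finset.sum_const, Finset.card_univ,
      Fintype.card_fin, nsmul_eq_mul] at h3
    have h4 : (μ s : ℝ) ≤ ((f.natDegree * dG s + dG t * dφ s : ℕ) : ℝ) := by
      push_cast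
      linarith
    have h5 : μ s ≤ f.natDegree * dG s + dG t * dφ s := by exact_mod_cast h4
    exact h5.trans (Nat.add_le_add_right (Nat.mul_le_mul_right _ hb) _)
  · refine (el_len_det _).trans ?_
    rw [Fin.prod_univ_add, mul_comm]
    have hG1 : (1 : ℝ) ≤ len G + 1 := by linarith [len_nonneg G]
    refine mul_le_mul ?_ ?_ (Finset.prod_nonneg fun j _ => Finset.sum_nonneg fun i _ =>
      len_nonneg _) (pow_nonneg (len_nonneg _) _)
    · refine (Finset.prod_le_prod (g := fun _ => len φ) (fun j _ => Finset.sum_nonneg fun i _ =>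
        len_nonneg _) fun j _ => ?_).trans (by simp)
      simp only [Polynomial.sylvester, Matrix.of_apply, Fin.addCases_right]
      exact el_col_le _ _ _ _ (el_sum_len t φ)
    · refine (Finset.prod_le_prod (g := fun _ => len G + 1) (fun j _ => Finset.sum_nonneg
        fun i _ => len_nonneg _) fun j _ => ?_).trans ?_
      · simp only [Polynomial.sylvester, Matrix.of_apply, Fin.addCases_left]
        refine el_col_le _ _ _ _ fun T => ?_
        have h4 : ∀ i, len ((elToP t G - Polynomial.C (X t)).coeff i) ≤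
            len ((elToP t G).coeff i) + if i = 0 then 1 else 0 := by
          intro i
          rw [hq, sub_eq_add_neg]
          refine (nrm_add_le (fun _ => zero_le_one) _ _).trans (add_le_add le_rfl ?_)
          rw [nrm_neg]
          split_ifs
          · exact (nrm_X t).le
          · exact nrm_zero.le
        refine (Finset.sum_le_sum fun i _ => h4 i).trans ?_
        rw [Finset.sum_add_distrib, Finset.sum_ite_eq']
        refine add_le_add (el_sum_len t G T) ?_
        split_ifs <;> norm_num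
      · rw [Finset.prod_const, Finset.card_univ, Fintype.card_fin]
        exact pow_le_pow_right₀ hG1 hb

theorem el_map_ne_zero {S : Type*} [CommRing S] (ev : MvPolynomial σ ℚ →+* S) (t : σ)
    {φ : MvPolynomial σ ℚ} (hφ' : ev (pderiv t φ) ≠ 0) : (elToP t φ).map ev ≠ 0 := by
  intro h
  apply hφ'
  rw [← el_pderiv, ← Polynomial.eval₂_hom, ← Polynomial.eval_map, ← Polynomial.derivative_map, h]
  simp

theorem el_coeff_bounds (t : σ) {χ : MvPolynomial σ ℚ} {d : σ → ℕ}
    (h : ∀ μ ∈ χ.support, ∀ s, s ≠ t → μ s ≤ d s) (k : ℕ) :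
    (∀ μ ∈ ((elToP t χ).coeff k).support, μ t = 0) ∧
      (∀ μ ∈ ((elToP t χ).coeff k).support, ∀ s, μ s ≤ d s) ∧ len ((elToP t χ).coeff k) ≤ len χ := by
  refine ⟨fun ν hν => ?_, fun ν hν s => ?_, by simpa using el_sum_len t χ {k}⟩
  · obtain ⟨μ, -, -, rfl⟩ := el_supp t χ k ν hν
    exact Finsupp.erase_same
  · obtain ⟨μ, hμ, -, rfl⟩ := el_supp t χ k ν hν
    by_cases hs : s = t
    · rw [hs, Finsupp.erase_same]
      exact Nat.zero_le _
    · rw [Finsupp.erase_ne hs]
      exact h μ hμ s hs

/-- Elimination lemma. -/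
theorem elim_one {S : Type*} [CommRing S] [IsDomain S] (ev : MvPolynomial σ ℚ →+* S) (t : σ)
    {φ G : MvPolynomial σ ℚ} (hφi : IsInt φ) (hGi : IsInt G) (dφ dG : σ → ℕ)
    (hdφ : ∀ μ ∈ φ.support, ∀ s, μ s ≤ dφ s) (hdG : ∀ μ ∈ G.support, ∀ s, μ s ≤ dG s)
    (hφ : ev φ = 0) (hφ' : ev (pderiv t φ) ≠ 0) (hG : ev G ≠ 0) :
    ∃ N : MvPolynomial σ ℚ, IsInt N ∧ ev N ≠ 0 ∧ ev G ∣ ev N ∧ (∀ μ ∈ N.support, μ t = 0) ∧
      (∀ μ ∈ N.support, ∀ s, μ s ≤ dφ t * dG s + dG t * dφ s) ∧
      len N ≤ len φ ^ dG t * (len G + 1) ^ dφ t := by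
  obtain ⟨χ, h1, h2, h3, h4, h5⟩ := elim_core ev t hφi hGi dφ dG hdφ hdG hφ
    (el_map_ne_zero ev t hφ')
  obtain ⟨k, hk0, hk⟩ := el_dvd_coeff h2 hG h3
  rw [Polynomial.coeff_map] at hk0 hk
  obtain ⟨h6, h7, h8⟩ := el_coeff_bounds t h4 k
  exact ⟨(elToP t χ).coeff k, el_isInt t h1 k, hk0, hk, h6, h7, h8.trans h5⟩

end Pool.Agent.Lib.Common.ZeroLemma
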