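import Pool.Agent.Lib.Common.ZeroLemma.Gel

/-! The weight filtration over an arbitrary coefficient field, and additivity of the index. -/

namespace Pool.Agent.Lib.Common.ZeroLemma

open MvPolynomial Finset Pool.Agent.Lib.Common.Subspace

variable {σ τ : Type*} {K : Type*} [Field K] {ω : σ → ℝ}

/-- Every monomial of `P` has `ω`-weight at least `θ`. -/
def InF (ω : σ → ℝ) (θ : ℝ) (P : MvPolynomial σ K) : Prop :=
  ∀ μ ∈ P.support, θ ≤ Finsupp.weight ω μ

/-- Taylor expansion at the point `ξ` of a polynomial with rational coefficients. -/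
noncomputable def sh [CharZero K] (ξ : σ → K) : MvPolynomial σ ℚ →ₐ[ℚ] MvPolynomial σ K :=
  aeval (fun s => X s + C (ξ s))

theorem inF_monomial (μ : σ →₀ ℕ) (c : K) : InF ω (Finsupp.weight ω μ) (monomial μ c) := by
  intro ν hν
  rw [Finset.mem_singleton.1 (support_monomial_subset hν)]

theorem InF.mono {θ θ' : ℝ} {P : MvPolynomial σ K} (h : InF ω θ P) (hθ : θ' ≤ θ) :
    InF ω θ' P := fun μ hμ => hθ.trans (h μ hμ)

theorem weight_nonneg (hω : ∀ s, 0 ≤ ω s) (μ : σ →₀ ℕ) : 0 ≤ Finsupp.weight ω μ := by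
  rw [Finsupp.weight_apply]
  exact Finset.sum_nonneg fun s _ => nsmul_nonneg (hω s) _

theorem inF_of_nonpos (hω : ∀ s, 0 ≤ ω s) {θ : ℝ} (hθ : θ ≤ 0) (P : MvPolynomial σ K) :
    InF ω θ P := fun μ _ => hθ.trans (weight_nonneg hω μ)

theorem inF_zero (θ : ℝ) : InF ω θ (0 : MvPolynomial σ K) := by
  intro μ hμ
  simp at hμ

theorem inF_C (c : K) : InF ω 0 (C c : MvPolynomial σ K) := by
  have := inF_monomial (ω := ω) 0 c
  simpa using this

theorem inF_one : InF ω 0 (1 : MvPolynomial σ K) := by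
  have := inF_C (ω := ω) (1 : K)
  simpa using this

theorem inF_X (s : σ) : InF ω (ω s) (X s : MvPolynomial σ K) := by
  have := inF_monomial (ω := ω) (Finsupp.single s 1) (1 : K)
  simpa [Finsupp.weight_single, X] using this

theorem InF.of_support_subset {θ : ℝ} {P Q : MvPolynomial σ K} (h : InF ω θ P)
    (hQ : Q.support ⊆ P.support) : InF ω θ Q := fun μ hμ => h μ (hQ hμ)

theorem InF.add {θ : ℝ} {P Q : MvPolynomial σ K} (hP : InF ω θ P) (hQ : InF ω θ Q) :
    InF ω θ (P + Q) := by
  classical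
  intro μ hμ
  rcases Finset.mem_union.1 (support_add hμ) with h | h
  · exact hP μ h
  · exact hQ μ h

theorem InF.neg {θ : ℝ} {P : MvPolynomial σ K} (hP : InF ω θ P) : InF ω θ (-P) :=
  hP.of_support_subset (by simp)

theorem InF.smul {S : Type*} [SMulZeroClass S K] {θ : ℝ} {P : MvPolynomial σ K}
    (hP : InF ω θ P) (c : S) : InF ω θ (c • P) :=
  hP.of_support_subset support_smul

theorem InF.of_C_mul {θ : ℝ} {P : MvPolynomial σ K} {c : K} (hc : c ≠ 0)
    (hP : InF ω θ (C c * P)) : InF ω θ P := by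
  intro μ hμ
  refine hP μ ?_
  rw [mem_support_iff, coeff_C_mul]
  exact mul_ne_zero hc (mem_support_iff.1 hμ)

theorem inF_sum {θ : ℝ} {I : Type*} (s : Finset I) (f : I → MvPolynomial σ K)
    (h : ∀ i ∈ s, InF ω θ (f i)) : InF ω θ (∑ i ∈ s, f i) := by
  classical
  induction s using Finset.induction_on with
  | empty => simpa using inF_zero θ
  | insert a s ha ih =>
    rw [Finset.sum_insert ha]
    exact (h a (Finset.mem_insert_self _ _)).add (ih fun i hi => h i (Finset.mem_insert_of_mem hi))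

theorem InF.mul {θ θ' : ℝ} {P Q : MvPolynomial σ K} (hP : InF ω θ P) (hQ : InF ω θ' Q) :
    InF ω (θ + θ') (P * Q) := by
  classical
  intro μ hμ
  obtain ⟨a, ha, b, hb, rfl⟩ := Finset.mem_add.1 (support_mul P Q hμ)
  rw [map_add]
  exact add_le_add (hP a ha) (hQ b hb)

theorem inF_prod {I : Type*} (s : Finset I) (θ : I → ℝ) (f : I → MvPolynomial σ K)
    (h : ∀ i ∈ s, InF ω (θ i) (f i)) : InF ω (∑ i ∈ s, θ i) (∏ i ∈ s, f i) := by
  classical
  induction s using Finset.induction_on with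
  | empty => simpa using inF_one
  | insert a s ha ih =>
    rw [Finset.sum_insert ha, Finset.prod_insert ha]
    exact (h a (Finset.mem_insert_self _ _)).mul (ih fun i hi => h i (Finset.mem_insert_of_mem hi))

theorem InF.pow {θ : ℝ} {P : MvPolynomial σ K} (hP : InF ω θ P) (k : ℕ) :
    InF ω (k * θ) (P ^ k) := by
  have := inF_prod (ω := ω) (Finset.range k) (fun _ => θ) (fun _ => P) fun _ _ => hP
  simpa using this

/-- Determinants with row and column potentials. -/
theorem inF_det {n : Type*} [Fintype n] [DecidableEq n] (A : Matrix n n (MvPolynomial σ K))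
    (r c : n → ℝ) (h : ∀ i j, InF ω (r i + c j) (A i j)) :
    InF ω (∑ i, r i + ∑ j, c j) A.det := by
  rw [Matrix.det_apply]
  refine inF_sum _ _ fun g _ => ?_
  have h1 := inF_prod Finset.univ (fun i => r (g i) + c i) (fun i => A (g i) i) fun i _ => h _ _
  rw [Finset.sum_add_distrib, Equiv.sum_comp g r] at h1
  rcases Int.units_eq_one_or (Equiv.Perm.sign g) with h2 | h2
  · simpa [h2] using h1
  · simpa [h2] using h1.neg

theorem InF.aeval {ω' : τ → ℝ} {θ : ℝ} {P : MvPolynomial σ K} (hP : InF ω θ P)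
    {f : σ → MvPolynomial τ K} (hf : ∀ s, InF ω' (ω s) (f s)) : InF ω' θ (aeval f P) := by
  rw [P.as_sum, map_sum]
  refine inF_sum _ _ fun μ hμ => ?_
  rw [aeval_monomial, algebraMap_eq]
  have h1 := (inF_C (ω := ω') (coeff μ P)).mul
    (inF_prod μ.support (fun s => μ s * ω s) (fun s => f s ^ μ s) fun s _ => (hf s).pow _)
  refine h1.mono ?_
  have h2 := hP μ hμ
  rw [Finsupp.weight_apply] at h2
  simpa [Finsupp.sum] using h2

theorem InF.pderiv {θ : ℝ} {P : MvPolynomial σ K} (hP : InF ω θ P) (s : σ) :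
    InF ω (θ - ω s) (pderiv s P) := by
  rw [P.as_sum, map_sum]
  refine inF_sum _ _ fun μ hμ => ?_
  rw [pderiv_monomial]
  by_cases h : μ s = 0
  · simpa [h] using inF_zero (θ - ω s)
  · refine (inF_monomial _ _).mono ?_
    have h1 : μ - Finsupp.single s 1 + Finsupp.single s 1 = μ :=
      Finsupp.sub_add_single_one_cancel h
    have h2 := hP μ hμ
    rw [← h1, map_add, Finsupp.weight_single, one_smul] at h2
    linarith

section Sh

variable [CharZero K]

theorem sh_X (ξ : σ → K) (s : σ) : sh ξ (X s) = X s + C (ξ s) := aeval_X _ _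

theorem sh_C (ξ : σ → K) (c : ℚ) : sh ξ (C c : MvPolynomial σ ℚ) = C (algebraMap ℚ K c) := by
  rw [sh, aeval_C]
  rfl

theorem sh_pderiv (ξ : σ → K) (s : σ) (R : MvPolynomial σ ℚ) :
    sh ξ (pderiv s R) = pderiv s (sh ξ R) := by
  classical
  induction R using MvPolynomial.induction_on with
  | C a => simp
  | add p q hp hq => simp only [map_add, hp, hq]
  | mul_X p t hp =>
    have h2 : sh ξ (pderiv s (X t)) = pderiv s (X t) := by
      rw [pderiv_X, pderiv_X]
      by_cases h : t = s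
      · subst h; simp
      · simp [Pi.single_eq_of_ne h]
    simp only [map_mul, Derivation.leibniz, smul_eq_mul, map_add, hp, sh_X, h2, pderiv_C, add_zero]

theorem inF_sh_hd (hω : ∀ s, 0 ≤ ω s) (ξ : σ → K) {θ : ℝ} {P : MvPolynomial σ ℚ}
    (hP : InF ω θ (sh ξ P)) (μ : σ →₀ ℕ) :
    InF ω (θ - Finsupp.weight ω μ) (sh ξ (hd μ P)) := by
  obtain ⟨n, hn⟩ : ∃ n, μ.degree = n := ⟨_, rfl⟩
  induction n generalizing μ with
  | zero =>
    have h0 : μ = 0 := (Finsupp.degree_eq_zero_iff μ).1 hn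
    subst h0
    have : hd 0 P = P := by
      ext ν
      rw [coeff_hd, bin_zero, Nat.cast_one, one_mul]
    simpa [this] using hP
  | succ n ih =>
    have h0 : μ ≠ 0 := by
      rintro rfl
      simp at hn
    obtain ⟨s, hs⟩ := Finsupp.support_nonempty_iff.2 h0
    have h1 : μ - Finsupp.single s 1 + Finsupp.single s 1 = μ :=
      Finsupp.sub_add_single_one_cancel (Finsupp.mem_support_iff.1 hs)
    generalize μ - Finsupp.single s 1 = μ' at h1
    subst h1
    have h2 := ih μ' (by
      rw [map_add, Finsupp.degree_single] at hn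
      omega)
    have hpos : ((μ' s : ℚ) + 1) ≠ 0 := by positivity
    have h3 : hd (μ' + Finsupp.single s 1) P =
        ((μ' s : ℚ) + 1)⁻¹ • (X s * MvPolynomial.pderiv s (hd μ' P) + (-(μ' s : ℚ)) • hd μ' P) := by
      ext ν
      rw [coeff_smul, coeff_add, fil_coeff_X_mul_pderiv, coeff_smul, coeff_hd, coeff_hd,
        smul_eq_mul, smul_eq_mul, eq_inv_mul_iff_mul_eq₀ hpos, ← mul_assoc, bin_add_single]
      ring
    rw [h3, map_smul, map_add (sh ξ), map_smul, map_mul, sh_pderiv]
    have h4 : InF ω 0 (sh ξ (X s)) := inF_of_nonpos hω le_rfl _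
    refine InF.smul (InF.add ((h4.mul (h2.pderiv s)).mono ?_) ((h2.smul _).mono ?_)) _
    · rw [map_add, Finsupp.weight_single, one_smul]
      linarith
    · rw [map_add, Finsupp.weight_single, one_smul]
      linarith [hω s]

theorem sh_injective (ξ : σ → K) : Function.Injective (sh ξ) := by
  have h1 : ∀ P : MvPolynomial σ ℚ,
      aeval (fun s => X s - C (ξ s)) (sh ξ P) = map (algebraMap ℚ K) P := by
    intro P
    induction P using MvPolynomial.induction_on with
    | C a => simp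
    | add p q hp hq => simp only [map_add, hp, hq]
    | mul_X p t hp => rw [map_mul, map_mul, map_mul, hp]; simp [sh_X]
  intro P Q h
  apply map_injective (algebraMap ℚ K) (algebraMap ℚ K).injective
  rw [← h1, ← h1, h]

theorem coeff_zero_sh (ξ : σ → K) (P : MvPolynomial σ ℚ) : coeff 0 (sh ξ P) = aeval ξ P := by
  rw [← constantCoeff_eq]
  induction P using MvPolynomial.induction_on with
  | C a => simp
  | add p q hp hq => simp only [map_add, hp, hq]
  | mul_X p t hp => simp [hp, sh_X]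

end Sh

/-- Two monomials of minimal weight whose sum occurs in the product. -/
theorem exists_min_mul [Finite σ] (P Q : MvPolynomial σ K) (hP : P ≠ 0) (hQ : Q ≠ 0) :
    ∃ μ ∈ P.support, ∃ ν ∈ Q.support, InF ω (Finsupp.weight ω μ) P ∧
      InF ω (Finsupp.weight ω ν) Q ∧ μ + ν ∈ (P * Q).support := by
  classical
  have := Fintype.ofFinite σ
  let _ : LinearOrder σ := LinearOrder.lift' (Fintype.equivFin σ) (Fintype.equivFin σ).injective
  let F : (σ →₀ ℕ) → ℝ ×ₗ Lex (σ →₀ ℕ) := fun μ => toLex (Finsupp.weight ω μ, toLex μ)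
  have hF : ∀ μ ν, F (μ + ν) = F μ + F ν := by
    intro μ ν
    simp only [F, map_add]
    rfl
  have hinj : Function.Injective F := by
    intro μ ν h
    have h1 := congrArg (fun x => (ofLex x).2) h
    simpa [F] using h1
  have hw : ∀ μ ν, F μ ≤ F ν → Finsupp.weight ω μ ≤ Finsupp.weight ω ν := by
    intro μ ν h
    rcases Prod.Lex.le_iff.1 h with h1 | h1
    · exact le_of_lt h1
    · exact le_of_eq h1.1
  obtain ⟨μ, hμ, h1⟩ := Finset.exists_min_image P.support F (support_nonempty.2 hP)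
  obtain ⟨ν, hν, h2⟩ := Finset.exists_min_image Q.support F (support_nonempty.2 hQ)
  refine ⟨μ, hμ, ν, hν, fun a ha => hw _ _ (h1 a ha), fun a ha => hw _ _ (h2 a ha), ?_⟩
  rw [mem_support_iff, coeff_mul, Finset.sum_eq_single (μ, ν)]
  · exact mul_ne_zero (mem_support_iff.1 hμ) (mem_support_iff.1 hν)
  · rintro ⟨a, b⟩ hab hne
    by_contra h
    have ha : a ∈ P.support := mem_support_iff.2 (left_ne_zero_of_mul h)
    have hb : b ∈ Q.support := mem_support_iff.2 (right_ne_zero_of_mul h)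
    have he : a + b = μ + ν := HasAntidiagonal.mem_antidiagonal.1 hab
    have h3 : F a + F b = F μ + F ν := by rw [← hF, ← hF, he]
    have h4 : F a = F μ := by
      refine le_antisymm ?_ (h1 a ha)
      by_contra h5
      exact absurd h3 (ne_of_gt (add_lt_add_of_lt_of_le (not_le.1 h5) (h2 b hb)))
    have h5 : a = μ := hinj h4
    subst h5
    exact hne (by rw [add_left_cancel he])
  · intro h
    exact absurd (HasAntidiagonal.mem_antidiagonal (a := (μ, ν)).2 rfl) h

/-- The index of a nonzero polynomial: the least weight of a monomial. -/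
theorem exists_ind_prod [Finite σ] {J : Type*} (t : Finset J) (f : J → MvPolynomial σ K)
    (hf : ∀ j ∈ t, f j ≠ 0) :
    ∃ m : J → (σ →₀ ℕ), (∀ j ∈ t, m j ∈ (f j).support ∧ InF ω (Finsupp.weight ω (m j)) (f j)) ∧
      ∃ μ ∈ (∏ j ∈ t, f j).support, Finsupp.weight ω μ = ∑ j ∈ t, Finsupp.weight ω (m j) := by
  classical
  have hm : ∀ j, ∃ m : σ →₀ ℕ, j ∈ t →
      m ∈ (f j).support ∧ InF ω (Finsupp.weight ω m) (f j) := by
    intro j
    by_cases hj : j ∈ t
    · obtain ⟨μ, hμ, h1⟩ := Finset.exists_min_image (f j).support (Finsupp.weight ω)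
        (support_nonempty.2 (hf j hj))
      exact ⟨μ, fun _ => ⟨hμ, h1⟩⟩
    · exact ⟨0, fun h => absurd h hj⟩
  choose m hm using hm
  refine ⟨m, hm, ?_⟩
  induction t using Finset.induction_on with
  | empty => exact ⟨0, by simp, by simp⟩
  | insert a s ha ih =>
    obtain ⟨μ, hμ, h1⟩ := ih (fun j hj => hf j (Finset.mem_insert_of_mem hj))
      (fun j hj => hm j (Finset.mem_insert_of_mem hj))
    rw [Finset.prod_insert ha, Finset.sum_insert ha]
    have hs0 : ∏ j ∈ s, f j ≠ 0 :=
      Finset.prod_ne_zero_iff.2 fun j hj => hf j (Finset.mem_insert_of_mem hj)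
    obtain ⟨α, hα, β, hβ, h2, h3, h4⟩ := exists_min_mul (ω := ω) (f a) (∏ j ∈ s, f j)
      (hf a (Finset.mem_insert_self _ _)) hs0
    refine ⟨α + β, h4, ?_⟩
    have ha' := hm a (Finset.mem_insert_self _ _)
    have e1 : Finsupp.weight ω α = Finsupp.weight ω (m a) :=
      le_antisymm (h2 _ ha'.1) (ha'.2 _ hα)
    have e2 : Finsupp.weight ω β = ∑ j ∈ s, Finsupp.weight ω (m j) := by
      refine le_antisymm ((h3 μ hμ).trans h1.le) ?_
      exact inF_prod s _ f (fun j hj => (hm j (Finset.mem_insert_of_mem hj)).2) β hβ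
    rw [map_add, e1, e2]

/-- Pigeonhole: one factor has a large index compared with its size. -/
theorem exists_factor [Finite σ] {J : Type*} (t : Finset J) (f : J → MvPolynomial σ K)
    (hf : ∀ j ∈ t, f j ≠ 0) (sz : J → ℝ) (hsz : ∀ j ∈ t, 0 ≤ sz j) (c θ : ℝ) (hc : 0 ≤ c)
    (hθ : 0 < θ) (hsum : c * ∑ j ∈ t, sz j ≤ θ)
    (h : InF ω θ (∏ j ∈ t, f j)) :
    ∃ j ∈ t, InF ω (c * sz j) (f j) ∧ coeff 0 (f j) = 0 := by
  classical
  obtain ⟨m, hm, μ, hμ, h1⟩ := exists_ind_prod (ω := ω) t f hf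
  have h2 := h μ hμ
  rw [h1] at h2
  by_contra hne
  push Not at hne
  have h3 : ∀ j ∈ t, Finsupp.weight ω (m j) ≤ c * sz j := by
    intro j hj
    by_cases h4 : InF ω (c * sz j) (f j)
    · have h5 : (0 : σ →₀ ℕ) ∈ (f j).support := mem_support_iff.2 (hne j hj h4)
      have := (hm j hj).2 0 h5
      rw [map_zero] at this
      exact this.trans (mul_nonneg hc (hsz j hj))
    · by_contra h6
      exact h4 ((hm j hj).2.mono (not_le.1 h6).le)
  have h4 : ∃ j ∈ t, 0 < Finsupp.weight ω (m j) := by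
    by_contra h5
    push Not at h5
    have := Finset.sum_nonpos h5
    linarith
  obtain ⟨j, hj, h5⟩ := h4
  have h6 : Finsupp.weight ω (m j) < c * sz j := by
    refine lt_of_le_of_ne (h3 j hj) fun e => ?_
    have h7 : InF ω (c * sz j) (f j) := e ▸ (hm j hj).2
    have h8 := (hm j hj).2 0 (mem_support_iff.2 (hne j hj h7))
    rw [map_zero] at h8
    linarith
  have h7 := Finset.sum_lt_sum h3 ⟨j, hj, h6⟩
  rw [← Finset.mul_sum] at h7
  linarith

end Pool.Agent.Lib.Common.ZeroLemma
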