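import Pool.Agent.Lib.Common.Subspace.Roth

/-! Gelfond's inequality for lengths of polynomials in several variables. -/

namespace Pool.Agent.Lib.Common.ZeroLemma

open MvPolynomial Finset

/-- Sum of the norms of the coefficients of a complex polynomial. -/
noncomputable def lenC {σ : Type*} (P : MvPolynomial σ ℂ) : ℝ :=
  ∑ μ ∈ P.support, ‖coeff μ P‖

theorem lenC_nonneg {σ : Type*} (P : MvPolynomial σ ℂ) : 0 ≤ lenC P :=
  Finset.sum_nonneg fun _ _ => norm_nonneg _

theorem gel_mahler_le (p : Polynomial ℂ) (K : ℝ) (hK : 0 ≤ K)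
    (h : ∀ z : ℂ, ‖z‖ = 1 → ‖p.eval z‖ ≤ K) : p.mahlerMeasure ≤ K := by
  refine p.mahlerMeasure_le_sqrt_sum_sq_norm_coeff.trans ?_
  rw [p.sum_sq_norm_coeff_eq_circleAverage, Real.sqrt_le_left hK]
  refine Real.circleAverage_mono_on_of_le_circle ?_ ?_
  · refine ContinuousOn.circleIntegrable' ?_
    exact Continuous.continuousOn (by fun_prop)
  · intro z hz
    have h1 : ‖z‖ = 1 := by simpa using hz
    exact pow_le_pow_left₀ (norm_nonneg _) (h z h1) 2

theorem gel_mahler_prod {J : Type*} (t : Finset J) (F : J → Polynomial ℂ) :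
    ∏ j ∈ t, (F j).mahlerMeasure = (∏ j ∈ t, F j).mahlerMeasure := by
  classical
  induction t using Finset.induction_on with
  | empty => simp
  | insert a s ha ih => rw [Finset.prod_insert ha, Finset.prod_insert ha,
      Polynomial.mahlerMeasure_mul, ih]

theorem gel_coeff_le (p : Polynomial ℂ) (k d : ℕ) (hd : p.natDegree ≤ d) :
    ‖p.coeff k‖ ≤ 2 ^ d * p.mahlerMeasure := by
  refine (p.norm_coeff_le_choose_mul_mahlerMeasure k).trans ?_
  refine mul_le_mul_of_nonneg_right ?_ p.mahlerMeasure_nonneg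
  have h1 : p.natDegree.choose k ≤ 2 ^ d :=
    (Nat.choose_le_two_pow _ _).trans (Nat.pow_le_pow_right (by norm_num) hd)
  exact_mod_cast h1

theorem gel_lenC_succ {n : ℕ} (f : MvPolynomial (Fin (n + 1)) ℂ) :
    lenC f ≤ ∑ k ∈ Finset.range (degreeOf 0 f + 1), lenC ((finSuccEquiv ℂ n f).coeff k) := by
  classical
  unfold lenC
  rw [← Finset.sum_fiberwise_of_maps_to (s := f.support) (t := Finset.range (degreeOf 0 f + 1))
    (g := fun μ => μ 0)]
  · refine Finset.sum_le_sum fun k _ => ?_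
    have hinj : Set.InjOn (fun μ : Fin (n + 1) →₀ ℕ => μ.tail)
        (f.support.filter (fun μ => μ 0 = k) : Finset _) := by
      intro μ hμ ν hν e
      have h1 : μ 0 = k := (Finset.mem_filter.1 hμ).2
      have h2 : ν 0 = k := (Finset.mem_filter.1 hν).2
      rw [← Finsupp.cons_tail (t := μ), ← Finsupp.cons_tail (t := ν), h1, h2]
      simp only at e
      rw [e]
    have he : ∀ μ ∈ f.support.filter (fun μ => μ 0 = k),
        ‖coeff μ f‖ = ‖coeff μ.tail ((finSuccEquiv ℂ n f).coeff k)‖ := by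
      intro μ hμ
      have h1 : μ 0 = k := (Finset.mem_filter.1 hμ).2
      rw [finSuccEquiv_coeff_coeff, ← h1, Finsupp.cons_tail]
    rw [Finset.sum_congr rfl he,
      ← Finset.sum_image (g := fun μ : Fin (n + 1) →₀ ℕ => μ.tail)
        (f := fun ν => ‖coeff ν ((finSuccEquiv ℂ n f).coeff k)‖) hinj]
    refine Finset.sum_le_sum_of_subset_of_nonneg ?_ fun _ _ _ => norm_nonneg _
    intro ν hν
    obtain ⟨μ, hμ, rfl⟩ := Finset.mem_image.1 hν
    have h1 : μ 0 = k := (Finset.mem_filter.1 hμ).2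
    rw [mem_support_iff, finSuccEquiv_coeff_coeff, ← h1, Finsupp.cons_tail]
    exact mem_support_iff.1 (Finset.mem_filter.1 hμ).1
  · intro μ hμ
    exact Finset.mem_range.2 (Nat.lt_succ_of_le (monomial_le_degreeOf 0 hμ))

theorem gel_exists_coeff {n : ℕ} (f : MvPolynomial (Fin (n + 1)) ℂ) :
    ∃ k, lenC f ≤ 2 ^ degreeOf 0 f * lenC ((finSuccEquiv ℂ n f).coeff k) := by
  obtain ⟨k, -, hk⟩ := Finset.exists_max_image (Finset.range (degreeOf 0 f + 1))
    (fun k => lenC ((finSuccEquiv ℂ n f).coeff k)) ⟨0, by simp⟩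
  refine ⟨k, (gel_lenC_succ f).trans ((Finset.sum_le_sum hk).trans ?_)⟩
  rw [Finset.sum_const, Finset.card_range, nsmul_eq_mul]
  refine mul_le_mul_of_nonneg_right ?_ (lenC_nonneg _)
  have : degreeOf 0 f + 1 ≤ 2 ^ degreeOf 0 f := Nat.lt_two_pow_self
  exact_mod_cast this

theorem gel_fin (n : ℕ) {J : Type*} (t : Finset J) :
    ∀ (f : J → MvPolynomial (Fin n) ℂ) (K : ℝ),
      (∀ z : Fin n → ℂ, (∀ a, ‖z a‖ = 1) → ∏ j ∈ t, ‖eval z (f j)‖ ≤ K) →
      ∏ j ∈ t, lenC (f j) ≤ 4 ^ (∑ j ∈ t, ∑ a, degreeOf a (f j)) * K := by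
  induction n with
  | zero =>
    intro f K h
    have h1 : ∀ j, lenC (f j) ≤ ‖eval (fun _ => 1) (f j)‖ := by
      intro j
      obtain ⟨c, hc⟩ : ∃ c, f j = C c := ⟨_, (f j).eq_C_of_isEmpty⟩
      rw [hc, eval_C]
      unfold lenC
      by_cases h0 : c = 0
      · simp [h0]
      · rw [C_apply, support_monomial, if_neg h0]
        simp
    simp only [Finset.univ_eq_empty, Finset.sum_empty, Finset.sum_const_zero, pow_zero, one_mul]
    exact (Finset.prod_le_prod (fun j _ => lenC_nonneg _) fun j _ => h1 j).trans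
      (h _ fun _ => by simp)
  | succ n ih =>
    intro f K h
    choose k hk using fun j => gel_exists_coeff (f j)
    have hK : 0 ≤ K := le_trans (Finset.prod_nonneg fun _ _ => norm_nonneg _)
      (h (fun _ => 1) fun _ => by simp)
    have h2 := ih (fun j => (finSuccEquiv ℂ n (f j)).coeff (k j))
      (2 ^ (∑ j ∈ t, degreeOf 0 (f j)) * K) (by
        intro z hz
        set F : J → Polynomial ℂ := fun j => (finSuccEquiv ℂ n (f j)).map (eval z) with hF
        have h3 : ∀ j, ‖eval z ((finSuccEquiv ℂ n (f j)).coeff (k j))‖ ≤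
            2 ^ degreeOf 0 (f j) * (F j).mahlerMeasure := by
          intro j
          have := gel_coeff_le (F j) (k j) (degreeOf 0 (f j))
            (Polynomial.natDegree_map_le.trans (natDegree_finSuccEquiv _).le)
          rwa [hF, Polynomial.coeff_map] at this
        refine (Finset.prod_le_prod (fun j _ => norm_nonneg _) fun j _ => h3 j).trans ?_
        rw [Finset.prod_mul_distrib, Finset.prod_pow_eq_pow_sum]
        refine mul_le_mul_of_nonneg_left ?_ (by positivity)
        rw [gel_mahler_prod]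
        refine gel_mahler_le _ K hK fun y hy => ?_
        rw [Polynomial.eval_prod, norm_prod]
        have := h (Fin.cons y z) (fun a => by
          refine Fin.cases ?_ (fun a => ?_) a
          · simpa using hy
          · simpa using hz a)
        simpa only [eval_eq_eval_mv_eval'] using this)
    refine (Finset.prod_le_prod (fun j _ => lenC_nonneg _) fun j _ => hk j).trans ?_
    rw [Finset.prod_mul_distrib, Finset.prod_pow_eq_pow_sum]
    refine (mul_le_mul_of_nonneg_left h2 (by positivity)).trans ?_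
    have h5 : ∑ j ∈ t, ∑ a, degreeOf a ((finSuccEquiv ℂ n (f j)).coeff (k j)) ≤
        ∑ j ∈ t, ∑ a : Fin n, degreeOf a.succ (f j) :=
      Finset.sum_le_sum fun j _ => Finset.sum_le_sum fun a _ => degreeOf_coeff_finSuccEquiv _ _ _
    have h6 : ∑ j ∈ t, ∑ a, degreeOf a (f j) =
        ∑ j ∈ t, degreeOf 0 (f j) + ∑ j ∈ t, ∑ a : Fin n, degreeOf a.succ (f j) := by
      rw [← Finset.sum_add_distrib]
      exact Finset.sum_congr rfl fun j _ => Fin.sum_univ_succ _
    rw [h6, pow_add]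
    have h7 : (4 : ℝ) ^ (∑ j ∈ t, ∑ a, degreeOf a ((finSuccEquiv ℂ n (f j)).coeff (k j))) ≤
        4 ^ (∑ j ∈ t, ∑ a : Fin n, degreeOf a.succ (f j)) := pow_le_pow_right₀ (by norm_num) h5
    have h8 : (4 : ℝ) ^ (∑ j ∈ t, degreeOf 0 (f j)) =
        2 ^ (∑ j ∈ t, degreeOf 0 (f j)) * 2 ^ (∑ j ∈ t, degreeOf 0 (f j)) := by
      rw [← mul_pow]; norm_num
    rw [h8]
    have h9 : (0 : ℝ) ≤ 2 ^ (∑ j ∈ t, degreeOf 0 (f j)) := by positivity
    calc _ = (2 ^ (∑ j ∈ t, degreeOf 0 (f j)) * 2 ^ (∑ j ∈ t, degreeOf 0 (f j)) * K) *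
          4 ^ (∑ j ∈ t, ∑ a, degreeOf a ((finSuccEquiv ℂ n (f j)).coeff (k j))) := by ring
      _ ≤ (2 ^ (∑ j ∈ t, degreeOf 0 (f j)) * 2 ^ (∑ j ∈ t, degreeOf 0 (f j)) * K) *
          4 ^ (∑ j ∈ t, ∑ a : Fin n, degreeOf a.succ (f j)) :=
        mul_le_mul_of_nonneg_left h7 (by positivity)
      _ = _ := by ring

theorem gel_eval_le {σ : Type*} (P : MvPolynomial σ ℂ) (z : σ → ℂ) (hz : ∀ a, ‖z a‖ = 1) :
    ‖eval z P‖ ≤ lenC P := by
  rw [eval_eq]
  refine (norm_sum_le _ _).trans (Finset.sum_le_sum fun μ _ => ?_)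
  rw [norm_mul, norm_prod]
  simp [hz]

theorem lenC_rename {σ τ : Type*} (e : σ ≃ τ) (P : MvPolynomial σ ℂ) :
    lenC (rename e P) = lenC P := by
  classical
  unfold lenC
  rw [support_rename_of_injective e.injective, Finset.sum_image
    (fun _ _ _ _ h => Finsupp.mapDomain_injective e.injective h)]
  exact Finset.sum_congr rfl fun μ _ => by rw [coeff_rename_mapDomain _ e.injective]

theorem gelfondC {σ : Type*} [Fintype σ] {J : Type*} (t : Finset J)
    (f : J → MvPolynomial σ ℂ) :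
    ∏ j ∈ t, lenC (f j) ≤ 4 ^ (∑ j ∈ t, ∑ a, degreeOf a (f j)) * lenC (∏ j ∈ t, f j) := by
  set e := Fintype.equivFin σ
  have h := gel_fin (Fintype.card σ) t (fun j => rename e (f j)) (lenC (∏ j ∈ t, f j)) (by
    intro z hz
    rw [← norm_prod, ← map_prod, ← map_prod, ← lenC_rename e]
    exact gel_eval_le _ z hz)
  simp only [lenC_rename] at h
  refine h.trans (le_of_eq ?_)
  congr 2
  refine Finset.sum_congr rfl fun j _ => ?_
  rw [← e.sum_comp]
  exact Finset.sum_congr rfl fun a _ => degreeOf_rename_of_injective e.injective a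

open Pool.Agent.Lib.Common.Subspace in
theorem lenC_map {σ : Type*} (P : MvPolynomial σ ℚ) :
    lenC (map (algebraMap ℚ ℂ) P) = len P := by
  unfold lenC
  rw [len_eq, support_map_of_injective _ (algebraMap ℚ ℂ).injective]
  refine Finset.sum_congr rfl fun μ _ => ?_
  rw [coeff_map, ← Real.norm_eq_abs, ← Complex.norm_real]
  simp

theorem degreeOf_map_inj {σ R S : Type*} [CommSemiring R] [CommSemiring S] (φ : R →+* S)
    (hφ : Function.Injective φ) (a : σ) (P : MvPolynomial σ R) :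
    degreeOf a (map φ P) = degreeOf a P := by
  classical
  rw [degreeOf_eq_sup, degreeOf_eq_sup, support_map_of_injective _ hφ]

open Pool.Agent.Lib.Common.Subspace in
/-- Gelfond's inequality. -/
theorem gelfond {σ : Type*} [Fintype σ] {J : Type*} (t : Finset J)
    (f : J → MvPolynomial σ ℚ) :
    ∏ j ∈ t, len (f j) ≤ 4 ^ (∑ j ∈ t, ∑ a, degreeOf a (f j)) * len (∏ j ∈ t, f j) := by
  have h := gelfondC t (fun j => map (algebraMap ℚ ℂ) (f j))
  simp only [lenC_map, degreeOf_map_inj _ (algebraMap ℚ ℂ).injective] at h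
  rwa [← map_prod, lenC_map] at h

end Pool.Agent.Lib.Common.ZeroLemma
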