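import Pool.Agent.Lib.Common.ZeroLemma.Wr

/-! A zero lemma (product lemma) for polynomials in blocks of variables. -/

namespace Pool.Agent.Lib.Common.ZeroLemma

open MvPolynomial Finset Pool.Agent.Lib.Common.Subspace

variable {σ : Type*}

theorem exists_clear (P : MvPolynomial σ ℚ) :
    ∃ m : ℤ, m ≠ 0 ∧ ∃ Q : MvPolynomial σ ℤ, map (Int.castRingHom ℚ) Q = C (m : ℚ) * P := by
  induction P using MvPolynomial.induction_on' with
  | monomial μ c =>
    refine ⟨c.den, by exact_mod_cast c.den_nz, monomial μ c.num, ?_⟩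
    rw [map_monomial, C_mul_monomial]
    congr 1
    simp [Rat.den_mul_eq_num]
  | add p q hp hq =>
    obtain ⟨m, hm, P, hP⟩ := hp
    obtain ⟨n, hn, Q, hQ⟩ := hq
    refine ⟨m * n, mul_ne_zero hm hn, C n * P + C m * Q, ?_⟩
    rw [map_add, map_mul, map_mul, hP, hQ, map_C, map_C]
    simp only [eq_intCast, Int.cast_mul, map_mul]
    ring

theorem prime_map {p : MvPolynomial σ ℤ} (hp : Prime p) :
    (∃ c, map (Int.castRingHom ℚ) p = C c) ∨ Irreducible (map (Int.castRingHom ℚ) p) := by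
  have hinj : Function.Injective (map (σ := σ) (Int.castRingHom ℚ)) :=
    map_injective _ (Int.castRingHom ℚ).injective_int
  by_cases h : ∃ c, map (Int.castRingHom ℚ) p = C c
  · exact Or.inl h
  right
  refine Prime.irreducible ⟨fun e => h ⟨0, by simpa using e⟩, fun e => ?_, ?_⟩
  · obtain ⟨c, -, hc⟩ := isUnit_iff_eq_C_of_isReduced.1 e
    exact h ⟨c, hc⟩
  · rintro a b ⟨c, hc⟩
    obtain ⟨m, hm, A, hA⟩ := exists_clear a
    obtain ⟨n, hn, B, hB⟩ := exists_clear b
    obtain ⟨k, hk, Q, hQ⟩ := exists_clear c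
    have h1 : C k * (A * B) = p * (C (m * n) * Q) := by
      apply hinj
      have hC : ∀ z : ℤ, map (σ := σ) (Int.castRingHom ℚ) (C z) = C (z : ℚ) := fun z =>
        map_C _ z
      rw [map_mul, map_mul, map_mul, map_mul, hA, hB, hQ, hC, hC, Int.cast_mul, map_mul]
      linear_combination (C (k : ℚ) * C (m : ℚ) * C (n : ℚ)) * hc
    have hu : ∀ m : ℤ, m ≠ 0 → IsUnit (C (m : ℚ) : MvPolynomial σ ℚ) := fun m hm =>
      (IsUnit.mk0 (m : ℚ) (by exact_mod_cast hm)).map C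
    rcases hp.dvd_or_dvd (Dvd.intro _ h1.symm) with h2 | h2
    · obtain ⟨c, -, hc⟩ := (dvd_C_iff_exists hk).1 h2
      exact absurd ⟨_, by rw [hc, map_C]⟩ h
    · rcases hp.dvd_or_dvd h2 with h3 | h3
      · left
        have := map_dvd (map (Int.castRingHom ℚ)) h3
        rwa [hA, (hu m hm).dvd_mul_left] at this
      · right
        have := map_dvd (map (Int.castRingHom ℚ)) h3
        rwa [hB, (hu n hn).dvd_mul_left] at this

/-- Factorization of an integer polynomial into integer factors that are constant or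
irreducible over the rationals. -/
theorem exists_factors {P : MvPolynomial σ ℚ} (hP : IsInt P) (h0 : P ≠ 0) :
    ∃ (n : ℕ) (q : Fin n → MvPolynomial σ ℚ), ∏ j, q j = P ∧
      ∀ j, IsInt (q j) ∧ ((∃ c, q j = C c) ∨ Irreducible (q j)) := by
  obtain ⟨Q, rfl⟩ := (norm_isInt_iff P).1 hP
  have hi : ∀ Q : MvPolynomial σ ℤ, IsInt (map (Int.castRingHom ℚ) Q) := fun Q =>
    (norm_isInt_iff _).2 ⟨Q, rfl⟩
  have hQ : Q ≠ 0 := by
    rintro rfl
    simp at h0
  clear h0 hP
  induction Q using UniqueFactorizationMonoid.induction_on_prime with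
  | h₁ => exact absurd rfl hQ
  | h₂ x hx =>
    obtain ⟨c, -, hc⟩ := isUnit_iff_eq_C_of_isReduced.1 hx
    exact ⟨1, fun _ => map (Int.castRingHom ℚ) x, by simp,
      fun _ => ⟨hi x, Or.inl ⟨_, by rw [hc, map_C]⟩⟩⟩
  | h₃ a p ha hp ih =>
    obtain ⟨n, q, h1, h2⟩ := ih ha
    refine ⟨n + 1, Fin.cons (map (Int.castRingHom ℚ) p) q, ?_, fun j => ?_⟩
    · rw [Fin.prod_cons, h1, map_mul]
    · exact Fin.cases ⟨hi p, prime_map hp⟩ h2 j

theorem irreducible_of_aeval {K : Type*} [Field K] [CharZero K] {q : MvPolynomial σ ℚ}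
    (h0 : q ≠ 0) (h : (∃ c, q = C c) ∨ Irreducible q) (ξ : σ → K) (hξ : aeval ξ q = 0) :
    Irreducible q := by
  rcases h with ⟨c, rfl⟩ | h
  · rw [aeval_C, map_eq_zero] at hξ
    simp [hξ] at h0
  · exact h

theorem apply_le_of_dvd {q P : MvPolynomial σ ℚ} (h : q ∣ P) (h0 : P ≠ 0) (b : σ)
    {μ : σ →₀ ℕ} (hμ : μ ∈ q.support) : ∃ ν ∈ P.support, μ b ≤ ν b := by
  classical
  obtain ⟨r, rfl⟩ := h
  have h1 : μ b ≤ degreeOf b (q * r) := by
    rw [degreeOf_mul_eq (left_ne_zero_of_mul h0) (right_ne_zero_of_mul h0)]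
    exact (monomial_le_degreeOf b hμ).trans (Nat.le_add_right _ _)
  rw [degreeOf_eq_sup] at h1
  obtain ⟨ν, hν, h2⟩ := Finset.exists_mem_eq_sup _ (support_nonempty.2 h0) (fun m => m b)
  exact ⟨ν, hν, h2 ▸ h1⟩

theorem mul_degreeOf_le {P : MvPolynomial σ ℚ} (h0 : P ≠ 0) (b : σ) (c t : ℝ)
    (h : ∀ μ ∈ P.support, c * μ b ≤ t) : c * degreeOf b P ≤ t := by
  classical
  rw [degreeOf_eq_sup]
  obtain ⟨ν, hν, h2⟩ := Finset.exists_mem_eq_sup _ (support_nonempty.2 h0) (fun m => m b)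
  rw [h2]
  exact h ν hν

/-- Selection of an irreducible factor with large index compared with its size. -/
theorem select [Fintype σ] {K : Type*} [Field K] [CharZero K] (P : MvPolynomial σ ℚ)
    (h0 : P ≠ 0) (hP : IsInt P) (ω : σ → ℝ) (ε D θ : ℝ) (hε : ∀ b, 1 ≤ ε * ω b) (hε0 : 0 < ε)
    (hD : 0 < D) (hθ : 0 < θ) (hdeg : ∀ μ ∈ P.support, ∀ b, ω b * μ b ≤ D)
    (hlen : len P ≤ Real.exp (ε * D)) (ξ : σ → K) (hin : InF ω (θ * D) (sh ξ P)) :
    ∃ (q : MvPolynomial σ ℚ) (D' : ℝ), 0 < D' ∧ Irreducible q ∧ IsInt q ∧ q ∣ P ∧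
      (∀ μ ∈ q.support, ∀ b, ω b * μ b ≤ D') ∧ len q ≤ Real.exp (ε * D') ∧
      InF ω (θ / (3 * Fintype.card σ + 1) * D') (sh ξ q) := by
  classical
  have hω : ∀ b, 0 < ω b := by
    intro b
    by_contra h
    have : ε * ω b ≤ 0 := mul_nonpos_of_nonneg_of_nonpos hε0.le (not_lt.1 h)
    linarith [hε b]
  obtain ⟨n, q, h1, h2⟩ := exists_factors hP h0
  have hq0 : ∀ j, q j ≠ 0 := fun j => Finset.prod_ne_zero_iff.1 (h1 ▸ h0) j (Finset.mem_univ j)
  have hl1 : ∀ j, 1 ≤ len (q j) := fun j => one_le_len (h2 j).1 (hq0 j)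
  have hlog : ∀ j, 0 ≤ Real.log (len (q j)) := fun j => Real.log_nonneg (hl1 j)
  set N : ℝ := ((Fintype.card σ : ℕ) : ℝ) with hN
  have hN0 : 0 ≤ N := by positivity
  let sz : Fin n → ℝ := fun j => ∑ b, ω b * degreeOf b (q j) + Real.log (len (q j)) / ε
  have hsz1 : ∀ j, 0 ≤ ∑ b, ω b * degreeOf b (q j) := fun j =>
    Finset.sum_nonneg fun b _ => mul_nonneg (hω b).le (by positivity)
  have hsz2 : ∀ j, 0 ≤ Real.log (len (q j)) / ε := fun j => div_nonneg (hlog j) hε0.le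
  have hdo : ∀ b, degreeOf b P = ∑ j, degreeOf b (q j) := fun b => by
    rw [← h1, degreeOf_prod_eq _ _ fun j _ => hq0 j]
  have hdP : ∀ b, ω b * degreeOf b P ≤ D := fun b =>
    mul_degreeOf_le h0 b _ _ fun μ hμ => hdeg μ hμ b
  have hs1 : ∑ j, ∑ b, ω b * degreeOf b (q j) ≤ N * D := by
    rw [Finset.sum_comm]
    refine (Finset.sum_le_sum (g := fun _ => D) fun b _ => ?_).trans (by simp [hN])
    rw [← Finset.mul_sum]
    have := hdP b
    rw [hdo] at this
    push_cast at this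
    exact this
  have hs2 : ∑ j, Real.log (len (q j)) ≤ (2 * N + 1) * (ε * D) := by
    have h3 := gelfond Finset.univ q
    rw [h1] at h3
    rw [← Real.log_prod fun j _ => by linarith [hl1 j]]
    have h4 : ((∑ j, ∑ a, degreeOf a (q j) : ℕ) : ℝ) ≤ N * (ε * D) := by
      rw [Finset.sum_comm]
      push_cast
      refine (Finset.sum_le_sum (g := fun _ => ε * D) fun b _ => ?_).trans (by simp [hN])
      have h5 := hdP b
      have h6 : (degreeOf b P : ℝ) * 1 ≤ degreeOf b P * (ε * ω b) :=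
        mul_le_mul_of_nonneg_left (hε b) (by positivity)
      have h7 := mul_le_mul_of_nonneg_left h5 hε0.le
      have h8 : (degreeOf b P : ℝ) = ∑ j, (degreeOf b (q j) : ℝ) := by
        rw [hdo]; push_cast; rfl
      linarith
    refine Real.log_le_iff_le_exp (Finset.prod_pos fun j _ => by linarith [hl1 j]) |>.2 ?_
    refine h3.trans ?_
    have h5 : (4 : ℝ) ^ (∑ j, ∑ a, degreeOf a (q j)) ≤ Real.exp (2 * N * (ε * D)) := by
      have h6 : (4 : ℝ) ≤ Real.exp 2 := by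
        have h7 := Real.add_one_le_exp 1
        have h8 : Real.exp 2 = Real.exp 1 * Real.exp 1 := by rw [← Real.exp_add]; norm_num
        nlinarith
      refine (pow_le_pow_left₀ (by norm_num) h6 _).trans ?_
      rw [← Real.exp_nat_mul]
      exact Real.exp_le_exp.2 (by linarith)
    refine (mul_le_mul h5 hlen (len_nonneg _) (Real.exp_nonneg _)).trans (le_of_eq ?_)
    rw [← Real.exp_add]
    congr 1
    ring
  have hsum : θ / (3 * N + 1) * ∑ j, sz j ≤ θ * D := by
    have h3 : ∑ j, sz j ≤ (3 * N + 1) * D := by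
      simp only [sz]
      rw [Finset.sum_add_distrib, ← Finset.sum_div]
      have : (∑ j, Real.log (len (q j))) / ε ≤ (2 * N + 1) * D := by
        rw [div_le_iff₀ hε0]
        linarith
      linarith
    calc θ / (3 * N + 1) * ∑ j, sz j ≤ θ / (3 * N + 1) * ((3 * N + 1) * D) :=
        mul_le_mul_of_nonneg_left h3 (by positivity)
      _ = θ * D := by field_simp
  obtain ⟨j, -, h3, h4⟩ := exists_factor (ω := ω) Finset.univ (fun j => sh ξ (q j))
    (fun j _ e => hq0 j (sh_injective ξ (by rw [e, map_zero]))) sz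
    (fun j _ => add_nonneg (hsz1 j) (hsz2 j)) (θ / (3 * N + 1)) (θ * D) (by positivity)
    (by positivity) hsum (by rw [← map_prod, h1]; exact hin)
  rw [coeff_zero_sh] at h4
  have hb : ∀ μ ∈ (q j).support, ∀ b, ω b * μ b ≤ sz j := by
    intro μ hμ b
    have h5 : ω b * μ b ≤ ω b * degreeOf b (q j) :=
      mul_le_mul_of_nonneg_left (by exact_mod_cast monomial_le_degreeOf b hμ) (hω b).le
    have h6 := Finset.single_le_sum (f := fun b => ω b * degreeOf b (q j))
      (fun b _ => mul_nonneg (hω b).le (by positivity)) (Finset.mem_univ b)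
    have := hsz2 j
    simp only [sz]
    linarith
  refine ⟨q j, sz j, ?_, irreducible_of_aeval (hq0 j) (h2 j).2 ξ h4, (h2 j).1,
    h1 ▸ Finset.dvd_prod_of_mem q (Finset.mem_univ j), hb, ?_, h3⟩
  · by_contra h5
    have h6 : ∀ μ ∈ (q j).support, μ = 0 := by
      intro μ hμ
      ext b
      by_contra h7
      have h8 : (0 : ℝ) < μ b := by exact_mod_cast Nat.pos_of_ne_zero h7
      have := mul_pos (hω b) h8
      linarith [hb μ hμ b]
    have h7 : q j = C (coeff 0 (q j)) := by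
      rw [← totalDegree_eq_zero_iff_eq_C, totalDegree_eq_zero_iff]
      intro μ hμ b
      rw [h6 μ hμ]
      rfl
    rw [h7, aeval_C, map_eq_zero] at h4
    exact hq0 j (by rw [h7, h4, map_zero])
  · rw [← Real.log_le_iff_le_exp (by linarith [hl1 j])]
    have h5 : Real.log (len (q j)) = ε * (Real.log (len (q j)) / ε) := by field_simp
    rw [h5]
    exact mul_le_mul_of_nonneg_left (le_add_of_nonneg_left (hsz1 j)) hε0.le

theorem zero_aux [Fintype σ] {ι : Type*} (blk : σ → ι) (K : Type*) [Field K] [CharZero K]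
    (n : ℕ) : ∀ θ : ℝ, 0 < θ → θ ≤ 1 → ∃ (B : ℕ) (η : ℝ), 0 < η ∧ ∀ (s : Finset σ), s.card ≤ n →
      ∀ (ε : ℝ) (ω : σ → ℝ), (∀ a, 1 ≤ ε * ω a) → 0 < ε →
      (∀ a b, blk a = blk b → ω a = ω b) →
      (∀ a b, blk a ≠ blk b → ω a ≤ η * ω b ∨ ω b ≤ η * ω a) →
      ∀ (ξ : σ → K) (D : ℝ), 0 < D → ∀ P : MvPolynomial σ ℚ, P ≠ 0 → IsInt P →
      (∀ b, b ∉ s → ∀ μ ∈ P.support, μ b = 0) →
      (∀ μ ∈ P.support, ∀ a, ω a * μ a ≤ D) → len P ≤ Real.exp (ε * D) →
      InF ω (θ * D) (sh ξ P) →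
      ∃ (a : σ) (g : MvPolynomial σ ℚ), g ≠ 0 ∧ IsInt g ∧
        (∀ μ ∈ g.support, ∀ b, (blk b ≠ blk a → μ b = 0) ∧ μ b ≤ B) ∧
        len g ≤ Real.exp (B * ε * ω a) ∧ aeval ξ g = 0 := by
  classical
  have hbase : ∀ (θ : ℝ) (ω : σ → ℝ) (ξ : σ → K) (D : ℝ) (P : MvPolynomial σ ℚ), 0 < θ → 0 < D →
      P ≠ 0 → (∀ b, ∀ μ ∈ P.support, μ b = 0) → ¬ InF ω (θ * D) (sh ξ P) := by
    intro θ ω ξ D P hθ hD h0 hs hin
    have h7 : P = C (coeff 0 P) := by
      rw [← totalDegree_eq_zero_iff_eq_C, totalDegree_eq_zero_iff]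
      exact fun μ hμ b => hs b μ hμ
    have h1 : (0 : σ →₀ ℕ) ∈ (sh ξ P).support := by
      rw [mem_support_iff, coeff_zero_sh, h7, aeval_C, Ne, map_eq_zero]
      intro e
      exact h0 (by rw [h7, e, map_zero])
    have h2 := hin 0 h1
    rw [map_zero] at h2
    linarith [mul_pos hθ hD]
  induction n with
  | zero =>
    intro θ hθ _
    refine ⟨0, 1, one_pos, ?_⟩
    intro s hs ε ω _ _ _ _ ξ D hD P h0 _ hsup _ _ hin
    obtain rfl : s = ∅ := Finset.card_eq_zero.1 (by omega)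
    exact absurd hin (hbase θ ω ξ D P hθ hD h0 fun b => hsup b (by simp))
  | succ n ih =>
    intro θ hθ hθ1
    set N := Fintype.card σ with hN
    set θ' : ℝ := θ / (3 * N + 1) with hθ'
    have hθ'0 : 0 < θ' := by positivity
    have hθ'1 : θ' ≤ 1 := by
      rw [hθ', div_le_one (by positivity)]
      have : (0 : ℝ) ≤ N := by positivity
      linarith
    set B0 := ⌈4 / θ'⌉₊ with hB0
    set r := (B0 + 1) ^ N with hr
    have hr1 : (1 : ℝ) ≤ r := by exact_mod_cast Nat.one_le_pow _ _ (Nat.succ_pos _)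
    have hθ''1 : θ' ^ 2 / 8 / r ≤ θ' ^ 2 / 8 := div_le_self (by positivity) hr1
    have hθ''2 : θ' ^ 2 / 8 ≤ θ' / 2 := by nlinarith
    obtain ⟨B, η, hη, H⟩ := ih (θ' ^ 2 / 8 / r) (by positivity) (by linarith)
    set c : ℕ := r + N + 4 with hc
    have hc' : (c : ℝ) = r + N + 4 := by rw [hc]; push_cast; rfl
    have hN0 : (0 : ℝ) ≤ N := by positivity
    refine ⟨c * B + B0, min η (θ' / 2 / r), lt_min hη (by positivity), ?_⟩
    intro s hs ε ω hε hε0 hblk hsep ξ D hD P h0 hP hsup hdeg hlen hin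
    have hω : ∀ b, 0 < ω b := by
      intro b
      by_contra h
      have : ε * ω b ≤ 0 := mul_nonpos_of_nonneg_of_nonpos hε0.le (not_lt.1 h)
      linarith [hε b]
    rcases s.eq_empty_or_nonempty with rfl | hne
    · exact absurd hin (hbase θ ω ξ D P hθ hD h0 fun b => hsup b (by simp))
    obtain ⟨a, ha, hmax⟩ := Finset.exists_max_image s ω hne
    have key : ∀ (D' : ℝ), 0 < D' → ∀ R : MvPolynomial σ ℚ, R ≠ 0 → IsInt R →
        (∀ b, b ∉ s.erase a → ∀ μ ∈ R.support, μ b = 0) →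
        (∀ μ ∈ R.support, ∀ b, ω b * μ b ≤ D') → len R ≤ Real.exp (c * ε * D') →
        InF ω (θ' ^ 2 / 8 / r * D') (sh ξ R) →
        ∃ (a : σ) (g : MvPolynomial σ ℚ), g ≠ 0 ∧ IsInt g ∧
          (∀ μ ∈ g.support, ∀ b, (blk b ≠ blk a → μ b = 0) ∧ μ b ≤ c * B + B0) ∧
          len g ≤ Real.exp (((c * B + B0 : ℕ) : ℝ) * ε * ω a) ∧ aeval ξ g = 0 := by
      intro D' hD' R hR0 hR hRs hRd hRl hRi
      obtain ⟨a', g, h1, h2, h3, h4, h5⟩ := H (s.erase a)
        (by rw [Finset.card_erase_of_mem ha]; omega) (c * ε) ω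
        (fun b => by nlinarith [hε b]) (by positivity) hblk
        (fun a b hab => (hsep a b hab).imp
          (fun h => h.trans (mul_le_mul_of_nonneg_right (min_le_left _ _) (hω b).le))
          (fun h => h.trans (mul_le_mul_of_nonneg_right (min_le_left _ _) (hω a).le)))
        ξ D' hD' R hR0 hR hRs hRd hRl hRi
      refine ⟨a', g, h1, h2, fun μ hμ b => ⟨(h3 μ hμ b).1, (h3 μ hμ b).2.trans ?_⟩,
        h4.trans (Real.exp_le_exp.2 ?_), h5⟩
      · have : 1 * B ≤ c * B := Nat.mul_le_mul_right B (by omega)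
        omega
      · push_cast
        have : 0 ≤ (B0 : ℝ) * ε * ω a' := by have := hω a'; positivity
        nlinarith
    obtain ⟨q, D', hD', hirr, hq, hdvd, hqd, hql, hqi⟩ :=
      select P h0 hP ω ε D θ hε hε0 hD hθ hdeg hlen ξ hin
    rw [← hN, ← hθ'] at hqi
    have hqs : ∀ b, b ∉ s → ∀ μ ∈ q.support, μ b = 0 := by
      intro b hb μ hμ
      obtain ⟨ν, hν, h1⟩ := apply_le_of_dvd hdvd h0 b hμ
      rw [hsup b hb ν hν] at h1
      omega
    have hex : ∀ x y : ℝ, x ≤ c → 0 ≤ y → Real.exp (x * ε * y) ≤ Real.exp (c * ε * y) :=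
      fun x y hx hy => Real.exp_le_exp.2
        (mul_le_mul_of_nonneg_right (mul_le_mul_of_nonneg_right hx hε0.le) hy)
    have hers : ∀ R : MvPolynomial σ ℚ, (∀ μ ∈ R.support, μ a = 0) →
        (∀ b, (∀ μ ∈ q.support, μ b = 0) → ∀ μ ∈ R.support, μ b = 0) →
        ∀ b, b ∉ s.erase a → ∀ μ ∈ R.support, μ b = 0 := by
      intro R h1 h2 b hb
      by_cases hba : b = a
      · rw [hba]; exact h1
      · exact h2 b (hqs b fun h => hb (Finset.mem_erase.2 ⟨hba, h⟩))
    by_cases hqa : ∃ μ ∈ q.support, μ a ≠ 0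
    swap
    · push Not at hqa
      refine key D' hD' q hirr.ne_zero hq (hers q hqa fun _ h => h) hqd
        (hql.trans ?_) (hqi.mono (mul_le_mul_of_nonneg_right (by linarith) hD'.le))
      have := hex 1 D' (by linarith) hD'.le
      rwa [one_mul] at this
    by_cases hbig : 4 * ω a ≤ θ' * D'
    · obtain ⟨D'', hD'', R, h1, h2, h3, h4, h5, h6, h7⟩ := res_step a q hirr hq hqa ω
        (fun b => (hω b).le) ε D' θ' (hε a) hε0 hD' hqd hql hθ'0 hθ'1 hbig ξ hqi
      exact key D'' hD'' R h1 h2 (hers R h3 h4) h5 (h6.trans (hex 4 D'' (by linarith) hD''.le))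
        (h7.mono (mul_le_mul_of_nonneg_right hθ''1 hD''.le))
    · push Not at hbig
      have haD : ω a ≤ D' := by
        obtain ⟨μ, hμ, h1⟩ := hqa
        have h2 : (1 : ℝ) ≤ μ a := by exact_mod_cast Nat.pos_of_ne_zero h1
        nlinarith [hqd μ hμ a, hω a]
      have hDB : D' ≤ B0 * ω a := by
        have h1 : 4 / θ' ≤ B0 := Nat.le_ceil _
        rw [div_le_iff₀ hθ'0] at h1
        have h2 : θ' * D' ≤ θ' * (B0 * ω a) := by nlinarith [hω a]
        exact le_of_mul_le_mul_left h2 hθ'0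
      have hη1 : θ' / 2 / r ≤ θ' / 2 := div_le_self (by positivity) hr1
      rcases wr_step (fun b => blk b = blk a) q hirr.ne_zero hq B0 (by
          intro μ hμ b hb
          have h1 := hqd μ hμ b
          rw [hblk b a hb] at h1
          have h2 : ω a * μ b ≤ ω a * B0 := by linarith
          exact_mod_cast le_of_mul_le_mul_left h2 (hω a)) ω ε D' θ' (θ' / 2 / r) hε hε0 hD'
          ((hε a).trans (mul_le_mul_of_nonneg_left haD hε0.le)) hqd hql (by positivity) (by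
          intro b hb hb2
          have hbs : b ∈ s := by
            by_contra h
            obtain ⟨μ, hμ, h1⟩ := hb2
            exact h1 (hqs b h μ hμ)
          rcases hsep b a hb with h | h
          · refine h.trans (mul_le_mul (min_le_right _ _) haD (hω a).le (by positivity))
          · exfalso
            have h1 : min η (θ' / 2 / r) * ω b ≤ 1 / 2 * ω a :=
              mul_le_mul ((min_le_right _ _).trans (by linarith)) (hmax b hbs) (hω b).le
                (by norm_num)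
            linarith [hω a]) r hr (by rw [mul_div_cancel₀ _ (by positivity)]) ξ hqi with h | h
      · obtain ⟨g, h1, h2, h3, h4, h5⟩ := h
        refine ⟨a, g, h1, h2, fun μ hμ b => ⟨(h3 μ hμ b).1, (h3 μ hμ b).2.trans (by omega)⟩,
          h4.trans (hql.trans (Real.exp_le_exp.2 ?_)), h5⟩
        push_cast
        have h6 : 0 ≤ (c : ℝ) * B * ε * ω a := by have := hω a; positivity
        nlinarith
      · obtain ⟨R, h1, h2, h3, h4, h5, h6, h7⟩ := h
        refine key (r * D') (by positivity) R h1 h2 (hers R (h3 a rfl) h4) h5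
          (h6.trans (hex _ _ (by rw [← hN]; linarith) (by positivity))) (h7.mono ?_)
        have : θ' ^ 2 / 8 / r * (r * D') = θ' ^ 2 / 8 * D' := by field_simp
        rw [this]
        exact mul_le_mul_of_nonneg_right hθ''2 hD'.le

/-- An irreducible factor vanishing at the point. -/
theorem exists_irreducible_factor [Fintype σ] {K : Type*} [Field K] [CharZero K]
    {g : MvPolynomial σ ℚ} (h0 : g ≠ 0) (hg : IsInt g) (ξ : σ → K) (hξ : aeval ξ g = 0) :
    ∃ q : MvPolynomial σ ℚ, Irreducible q ∧ IsInt q ∧ q ∣ g ∧ aeval ξ q = 0 ∧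
      len q ≤ 4 ^ (∑ a, degreeOf a g) * len g := by
  classical
  obtain ⟨n, q, h1, h2⟩ := exists_factors hg h0
  have hq0 : ∀ j, q j ≠ 0 := fun j => Finset.prod_ne_zero_iff.1 (h1 ▸ h0) j (Finset.mem_univ j)
  have hl1 : ∀ j, 1 ≤ len (q j) := fun j => one_le_len (h2 j).1 (hq0 j)
  rw [← h1, map_prod] at hξ
  obtain ⟨j, -, hj⟩ := Finset.prod_eq_zero_iff.1 hξ
  refine ⟨q j, irreducible_of_aeval (hq0 j) (h2 j).2 ξ hj, (h2 j).1,
    h1 ▸ Finset.dvd_prod_of_mem q (Finset.mem_univ j), hj, ?_⟩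
  have h3 := gelfond Finset.univ q
  rw [h1, Finset.sum_comm] at h3
  have hdo : ∀ b, degreeOf b g = ∑ j, degreeOf b (q j) := fun b => by
    rw [← h1, degreeOf_prod_eq _ _ fun j _ => hq0 j]
  simp only [hdo]
  refine le_trans ?_ h3
  rw [← Finset.mul_prod_erase _ _ (Finset.mem_univ j)]
  exact le_mul_of_one_le_right (len_nonneg _) (Finset.prod_induction _ (fun x => 1 ≤ x)
    (fun _ _ => one_le_mul_of_one_le_of_one_le) le_rfl fun i _ => hl1 i)

/-- The zero lemma. The variables are grouped in blocks, the weight is constant on each block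
and the weights of different blocks are widely separated. If an integer polynomial of weighted
degree at most `D` in each variable and of length at most `exp (ε D)` has index at least `θ D`
at `ξ`, then the coordinates of `ξ` in one block lie on an irreducible hypersurface of bounded
degree and small height. -/
theorem zero_lemma [Fintype σ] {ι : Type*} (blk : σ → ι) (K : Type*) [Field K] [CharZero K]
    (θ : ℝ) (hθ : 0 < θ) : ∃ (B : ℕ) (η : ℝ), 0 < η ∧
      ∀ (ε : ℝ) (ω : σ → ℝ), (∀ a, 1 ≤ ε * ω a) → 0 < ε →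
      (∀ a b, blk a = blk b → ω a = ω b) →
      (∀ a b, blk a ≠ blk b → ω a ≤ η * ω b ∨ ω b ≤ η * ω a) →
      ∀ (ξ : σ → K) (D : ℝ), 0 < D → ∀ P : MvPolynomial σ ℚ, P ≠ 0 → IsInt P →
      (∀ μ ∈ P.support, ∀ a, ω a * μ a ≤ D) → len P ≤ Real.exp (ε * D) →
      InF ω (θ * D) (sh ξ P) →
      ∃ (a : σ) (g : MvPolynomial σ ℚ), Irreducible g ∧ IsInt g ∧
        (∀ μ ∈ g.support, ∀ b, (blk b ≠ blk a → μ b = 0) ∧ μ b ≤ B) ∧
        len g ≤ Real.exp (B * ε * ω a) ∧ aeval ξ g = 0 := by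
  obtain ⟨B, η, hη, H⟩ := zero_aux blk K (Fintype.card σ) (min θ 1) (lt_min hθ one_pos)
    (min_le_right _ _)
  refine ⟨(2 * Fintype.card σ + 1) * B, η, hη, ?_⟩
  intro ε ω hε hε0 hblk hsep ξ D hD P h0 hP hdeg hlen hin
  obtain ⟨a, g, h1, h2, h3, h4, h5⟩ := H Finset.univ (by simp) ε ω hε hε0 hblk hsep ξ D hD P h0 hP
    (by simp) hdeg hlen (hin.mono (mul_le_mul_of_nonneg_right (min_le_left _ _) hD.le))
  obtain ⟨q, h6, h7, h8, h9, h10⟩ := exists_irreducible_factor h1 h2 ξ h5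
  refine ⟨a, q, h6, h7, fun μ hμ b => ?_, h10.trans ?_, h9⟩
  · obtain ⟨ν, hν, h11⟩ := apply_le_of_dvd h8 h1 b hμ
    refine ⟨fun h => ?_, h11.trans ((h3 ν hν b).2.trans ?_)⟩
    · rw [(h3 ν hν b).1 h] at h11
      omega
    · exact Nat.le_mul_of_pos_left _ (by omega)
  · have h11 : ∑ b, degreeOf b g ≤ Fintype.card σ * B := by
      refine (Finset.sum_le_sum (g := fun _ => B) fun b _ => ?_).trans (by simp)
      exact degreeOf_le_iff.2 fun μ hμ => (h3 μ hμ b).2
    have h6 : (4 : ℝ) ≤ Real.exp 2 := by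
      have h7 := Real.add_one_le_exp 1
      have h8 : Real.exp 2 = Real.exp 1 * Real.exp 1 := by rw [← Real.exp_add]; norm_num
      nlinarith
    have h12 : (4 : ℝ) ^ (∑ b, degreeOf b g) ≤ Real.exp ((Fintype.card σ * B : ℕ) * 2) := by
      rw [Real.exp_nat_mul]
      exact (pow_le_pow_right₀ (by norm_num) h11).trans (pow_le_pow_left₀ (by norm_num) h6 _)
    refine (mul_le_mul h12 h4 (len_nonneg _) (Real.exp_nonneg _)).trans ?_
    rw [← Real.exp_add]
    refine Real.exp_le_exp.2 ?_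
    push_cast
    have h13 : (0 : ℝ) ≤ Fintype.card σ * B * 2 := by positivity
    nlinarith [mul_le_mul_of_nonneg_left (hε a) h13]

/-- The zero lemma at a rational point, in the vocabulary of the Subspace Theorem library. -/
theorem zero_lemma_rat [Fintype σ] {ι : Type*} (blk : σ → ι) (θ : ℝ) (hθ : 0 < θ) :
    ∃ (B : ℕ) (η : ℝ), 0 < η ∧
      ∀ (ε : ℝ) (ω : σ → ℝ), (∀ a, 1 ≤ ε * ω a) → 0 < ε →
      (∀ a b, blk a = blk b → ω a = ω b) →
      (∀ a b, blk a ≠ blk b → ω a ≤ η * ω b ∨ ω b ≤ η * ω a) →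
      ∀ (ξ : σ → ℚ) (D : ℝ), 0 < D → ∀ P : MvPolynomial σ ℚ, P ≠ 0 → IsInt P →
      (∀ μ ∈ P.support, ∀ a, ω a * μ a ≤ D) → len P ≤ Real.exp (ε * D) →
      InFil ω (θ * D) (shift ξ P) →
      ∃ (a : σ) (g : MvPolynomial σ ℚ), Irreducible g ∧ IsInt g ∧
        (∀ μ ∈ g.support, ∀ b, (blk b ≠ blk a → μ b = 0) ∧ μ b ≤ B) ∧
        len g ≤ Real.exp (B * ε * ω a) ∧ eval ξ g = 0 :=
  zero_lemma blk ℚ θ hθ

end Pool.Agent.Lib.Common.ZeroLemma
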