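import Pool.Agent.Lib.Common.ZeroLemma.Elim
import Pool.Agent.Lib.Common.ZeroLemma.Main

/-! Non-vanishing of a low order coefficient along a formal branch. -/

namespace Pool.Agent.Lib.Common.ZeroLemma

open MvPolynomial Finset Pool.Agent.Lib.Common.Subspace

variable {σ : Type*}

/-- integral, of weighted degrees at most `D`, of length at most `exp (ε D)` -/
structure Sm (w : σ → ℝ) (ε D : ℝ) (P : MvPolynomial σ ℚ) : Prop where
  int : IsInt P
  deg : ∀ μ ∈ P.support, ∀ a, w a * μ a ≤ D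
  len : len P ≤ Real.exp (ε * D)

/-- `φ` is a small relation in variables not heavier than `t` that holds along `ev` and is
separable in `t` -/
structure Rel {S : Type*} [CommRing S] (ev : MvPolynomial σ ℚ →+* S) (w : σ → ℝ) (ε : ℝ) (B : ℕ)
    (t : σ) (φ : MvPolynomial σ ℚ) : Prop where
  int : IsInt φ
  deg : ∀ μ ∈ φ.support, ∀ s, μ s ≤ B
  blk : ∀ μ ∈ φ.support, ∀ s, w t < w s → μ s = 0
  len : len φ ≤ Real.exp (ε * w t)
  zero : ev φ = 0
  sep : ev (pderiv t φ) ≠ 0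

theorem Sm.mono {w : σ → ℝ} {ε D D' : ℝ} {P : MvPolynomial σ ℚ} (h : Sm w ε D P) (hε : 0 ≤ ε)
    (hD : D ≤ D') : Sm w ε D' P :=
  ⟨h.int, fun μ hμ a => (h.deg μ hμ a).trans hD,
    h.len.trans (Real.exp_le_exp.2 (mul_le_mul_of_nonneg_left hD hε))⟩

theorem elim_step [DecidableEq σ] {S : Type*} [CommRing S] [IsDomain S]
    {ev : MvPolynomial σ ℚ →+* S} {w : σ → ℝ} (hw : ∀ a, 0 ≤ w a) {ε D : ℝ} (hε : 0 < ε)
    (hD : 1 ≤ ε * D) {B : ℕ} (hB : 1 ≤ B) {t : σ} {φ G : MvPolynomial σ ℚ}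
    (hφ : Rel ev w ε B t φ) (hG : Sm w ε D G) (h0 : ev G ≠ 0) :
    ∃ N, Sm w ε (3 * B * D) N ∧ ev N ≠ 0 ∧ ev G ∣ ev N ∧ (∀ μ ∈ N.support, μ t = 0) ∧
      ∀ s, (∀ μ ∈ G.support, μ s = 0) → (∀ μ ∈ φ.support, μ s = 0) → ∀ μ ∈ N.support, μ s = 0 := by
  obtain ⟨N, h1, h2, h3, h4, h5, h6⟩ := elim_one ev t hφ.int hG.int (fun s => degreeOf s φ)
    (fun s => degreeOf s G) (fun μ hμ s => monomial_le_degreeOf s hμ)
    (fun μ hμ s => monomial_le_degreeOf s hμ) hφ.zero hφ.sep h0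
  have hD0 : 0 < D := (mul_pos_iff_of_pos_left hε).1 (by linarith)
  have hB' : (1 : ℝ) ≤ B := by exact_mod_cast hB
  have hdG : ∀ s, w s * degreeOf s G ≤ D := by
    intro s
    rcases G.support.eq_empty_or_nonempty with h | h
    · rw [degreeOf_eq_sup, h]
      simpa using hD0.le
    · obtain ⟨μ, hμ, h7⟩ := Finset.exists_mem_eq_sup _ h (fun μ : σ →₀ ℕ => μ s)
      rw [degreeOf_eq_sup, h7]
      exact hG.deg μ hμ s
  have hdφ : ∀ s, degreeOf s φ ≤ B := fun s => degreeOf_le_iff.2 fun μ hμ => hφ.deg μ hμ s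
  have hdφ' : ∀ s, w s * degreeOf s φ ≤ w t * B := by
    intro s
    rcases le_or_gt (w s) (w t) with hs | hs
    · exact mul_le_mul hs (by exact_mod_cast hdφ s) (by positivity) (hw t)
    · have : degreeOf s φ = 0 := Nat.le_zero.1 (degreeOf_le_iff.2 fun μ hμ =>
        (hφ.blk μ hμ s hs).le)
      rw [this, Nat.cast_zero, mul_zero]
      exact mul_nonneg (hw t) (by positivity)
  refine ⟨N, ⟨h1, fun μ hμ s => ?_, h6.trans ?_⟩, h2, h3, h4, fun s hs hs' μ hμ => ?_⟩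
  · have h7 : (μ s : ℝ) ≤ degreeOf t φ * degreeOf s G + degreeOf t G * degreeOf s φ := by
      exact_mod_cast h5 μ hμ s
    have h8 : (degreeOf t φ : ℝ) ≤ B := by exact_mod_cast hdφ t
    have h9 := mul_le_mul h8 (hdG s) (mul_nonneg (hw s) (by positivity)) (by positivity)
    have h10 := mul_le_mul_of_nonneg_left (hdφ' s) (show (0 : ℝ) ≤ degreeOf t G by positivity)
    have h11 := mul_le_mul_of_nonneg_right (hdG t) (show (0 : ℝ) ≤ B by positivity)
    have h12 := mul_le_mul_of_nonneg_left h7 (hw s)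
    nlinarith [mul_pos hD0 (show (0 : ℝ) < B by linarith)]
  · have h7 : len φ ^ degreeOf t G ≤ Real.exp (ε * D) := by
      refine (pow_le_pow_left₀ (len_nonneg _) hφ.len _).trans ?_
      rw [← Real.exp_nat_mul, Real.exp_le_exp]
      nlinarith [hdG t]
    have h8 : len G + 1 ≤ Real.exp (2 * (ε * D)) := by
      have h9 := Real.add_one_le_exp (ε * D)
      have h10 := hG.len
      rw [two_mul, Real.exp_add]
      nlinarith
    have h9 : (len G + 1) ^ degreeOf t φ ≤ Real.exp (B * (2 * (ε * D))) := by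
      rw [Real.exp_nat_mul]
      exact (pow_le_pow_right₀ (by linarith [len_nonneg G]) (hdφ t)).trans
        (pow_le_pow_left₀ (by linarith [len_nonneg G]) h8 _)
    refine (mul_le_mul h7 h9 (pow_nonneg (by linarith [len_nonneg G]) _)
      (Real.exp_pos _).le).trans ?_
    rw [← Real.exp_add, Real.exp_le_exp]
    nlinarith
  · have h7 : degreeOf s G = 0 := Nat.le_zero.1 (degreeOf_le_iff.2 fun μ hμ => (hs μ hμ).le)
    have h8 : degreeOf s φ = 0 := Nat.le_zero.1 (degreeOf_le_iff.2 fun μ hμ => (hs' μ hμ).le)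
    have h9 := h5 μ hμ s
    simp only [h7, h8, mul_zero, add_zero] at h9
    omega

theorem elim_list [DecidableEq σ] {S : Type*} [CommRing S] [IsDomain S]
    {ev : MvPolynomial σ ℚ →+* S} {w : σ → ℝ} (hw : ∀ a, 0 ≤ w a) {ε : ℝ} (hε : 0 < ε)
    {B : ℕ} (hB : 1 ≤ B) (φ : σ → MvPolynomial σ ℚ) (l : List σ)
    (hl : l.Pairwise fun a b => ∀ μ ∈ (φ b).support, μ a = 0)
    (hφ : ∀ t ∈ l, Rel ev w ε B t (φ t)) {D : ℝ} (hD : 1 ≤ ε * D) {G : MvPolynomial σ ℚ}
    (hG : Sm w ε D G) (h0 : ev G ≠ 0) :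
    ∃ N, Sm w ε ((3 * B) ^ l.length * D) N ∧ ev N ≠ 0 ∧ ev G ∣ ev N ∧
      (∀ t ∈ l, ∀ μ ∈ N.support, μ t = 0) ∧
      ∀ s, (∀ μ ∈ G.support, μ s = 0) → (∀ t ∈ l, ∀ μ ∈ (φ t).support, μ s = 0) →
        ∀ μ ∈ N.support, μ s = 0 := by
  induction l generalizing G D with
  | nil => exact ⟨G, by simpa using hG, h0, dvd_rfl, by simp, fun s hs _ => hs⟩
  | cons t l ih =>
    have hB' : (1 : ℝ) ≤ B := by exact_mod_cast hB
    obtain ⟨N, h1, h2, h3, h4, h5⟩ := elim_step hw hε hD hB (hφ t List.mem_cons_self) hG h0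
    rw [List.pairwise_cons] at hl
    obtain ⟨N', k1, k2, k3, k4, k5⟩ := ih hl.2 (fun s hs => hφ s (List.mem_cons_of_mem _ hs))
      (D := 3 * B * D) (by nlinarith) h1 h2
    refine ⟨N', ?_, k2, h3.trans k3, fun s hs => ?_, fun s hs hs' => ?_⟩
    · rw [List.length_cons, pow_succ, mul_assoc]
      exact k1
    · rcases List.mem_cons.1 hs with rfl | hs
      · exact k5 _ h4 hl.1
      · exact k4 s hs
    · exact k5 s (h5 s hs (hs' t List.mem_cons_self))
        fun a ha => hs' a (List.mem_cons_of_mem _ ha)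

theorem nv_rename {τ : Type*} {e : τ → σ} (he : Function.Injective e) {w : σ → ℝ} {ε D : ℝ}
    {P : MvPolynomial τ ℚ} (h : Sm w ε D (rename e P)) : Sm (fun a => w (e a)) ε D P := by
  classical
  refine ⟨fun μ => ?_, fun μ hμ a => ?_, le_trans ?_ h.len⟩
  · rw [← coeff_rename_mapDomain e he]
    exact h.int _
  · have h1 : Finsupp.mapDomain e μ ∈ (rename e P).support := by
      rw [mem_support_iff, coeff_rename_mapDomain e he]
      exact mem_support_iff.1 hμ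
    have h2 := h.deg _ h1 (e a)
    rwa [Finsupp.mapDomain_apply he] at h2
  · exact len_le_of_injOn _ _ (Finsupp.mapDomain e) (Finsupp.mapDomain_injective he).injOn
      fun μ _ => (coeff_rename_mapDomain e he P μ).symm

/-- Elimination followed by the zero lemma.  The variables `e a` are kept and sent to
`ξ a + X a`; the variables of the list `l` are eliminated one after the other. -/
theorem nonvanishing {τ ι K : Type*} [Fintype τ] [Field K] [CharZero K] {e : τ → σ}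
    (he : Function.Injective e) (blk : τ → ι) (B₀ k : ℕ) (θ : ℝ) (hθ : 0 < θ) :
    ∃ (B : ℕ) (η : ℝ), 0 < η ∧ ∀ (ε : ℝ) (w : σ → ℝ), 0 < ε → (∀ a, 1 ≤ ε * w a) →
      (∀ a b, blk a = blk b → w (e a) = w (e b)) →
      (∀ a b, blk a ≠ blk b → w (e a) ≤ η * w (e b) ∨ w (e b) ≤ η * w (e a)) →
      ∀ (ξ : τ → K) (ev : MvPolynomial σ ℚ →+* MvPowerSeries τ K),
      (∀ a, ev (X (e a)) = MvPowerSeries.C (ξ a) + MvPowerSeries.X a) →
      ∀ (l : List σ) (φ : σ → MvPolynomial σ ℚ), l.length ≤ k → (∀ s, s ∈ l ∨ s ∈ Set.range e) →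
      (l.Pairwise fun a b => ∀ μ ∈ (φ b).support, μ a = 0) →
      (∀ t ∈ l, Rel ev w ε B₀ t (φ t)) →
      ∀ (D : ℝ), 1 ≤ ε * D → ∀ G : MvPolynomial σ ℚ, Sm w ε D G → ev G ≠ 0 →
      (∃ κ : τ →₀ ℕ, Finsupp.weight (fun a => w (e a)) κ < θ * D ∧
        MvPowerSeries.coeff κ (ev G) ≠ 0) ∨
      ∃ (a : τ) (g : MvPolynomial τ ℚ), Irreducible g ∧ IsInt g ∧
        (∀ μ ∈ g.support, ∀ b, (blk b ≠ blk a → μ b = 0) ∧ μ b ≤ B) ∧
        len g ≤ Real.exp (B * ε * w (e a)) ∧ aeval ξ g = 0 := by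
  classical
  have hc : (1 : ℝ) ≤ 3 * ((B₀ + 1 : ℕ) : ℝ) := by
    push_cast
    linarith [Nat.cast_nonneg (α := ℝ) B₀]
  have hck : (0 : ℝ) < (3 * ((B₀ + 1 : ℕ) : ℝ)) ^ k := by positivity
  obtain ⟨B, η, hη, H⟩ := zero_lemma blk K (θ / (3 * ((B₀ + 1 : ℕ) : ℝ)) ^ k) (by positivity)
  refine ⟨B, η, hη, ?_⟩
  intro ε w hε hw hb1 hb2 ξ ev hev l φ hk hcov hl hφ D hD G hG h0
  have hw0 : ∀ a, 0 ≤ w a := fun a => ((mul_pos_iff_of_pos_left hε).1 (by linarith [hw a])).le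
  have hD0 : 0 < D := (mul_pos_iff_of_pos_left hε).1 (by linarith)
  have : IsDomain (MvPowerSeries τ K) := NoZeroDivisors.to_isDomain _
  obtain ⟨N, h1, h2, h3, h4, -⟩ := elim_list hw0 hε (Nat.le_add_left 1 B₀) φ l
    hl (fun t ht => ⟨(hφ t ht).int, fun μ hμ s => ((hφ t ht).deg μ hμ s).trans (Nat.le_succ _),
      (hφ t ht).blk, (hφ t ht).len, (hφ t ht).zero, (hφ t ht).sep⟩) hD hG h0
  obtain ⟨P, rfl⟩ := exists_rename_eq_of_vars_subset_range N e he (by
    intro s hs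
    rcases hcov s with h | h
    · obtain ⟨μ, hμ, h5⟩ := (mem_vars_iff_mem_support s).1 (Finset.mem_coe.1 hs)
      exact absurd (h4 s h μ hμ) (Finsupp.mem_support_iff.1 h5)
    · exact h)
  have h5 := (nv_rename he h1).mono hε.le (D' := (3 * ((B₀ + 1 : ℕ) : ℝ)) ^ k * D)
    (mul_le_mul_of_nonneg_right (pow_le_pow_right₀ hc hk) hD0.le)
  have h6 : ev (rename e P) =
      ((aeval (fun a => X a + C (ξ a)) P : MvPolynomial τ K) : MvPowerSeries τ K) := by
    have : ev.comp (rename e : MvPolynomial τ ℚ →ₐ[ℚ] MvPolynomial σ ℚ).toRingHom =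
        (coeToMvPowerSeries.ringHom).comp
          (aeval (fun a => X a + C (ξ a)) : MvPolynomial τ ℚ →ₐ[ℚ] MvPolynomial τ K).toRingHom := by
      refine MvPolynomial.ringHom_ext' (Subsingleton.elim _ _) fun a => ?_
      simp [hev, add_comm]
    have h7 := congrArg (fun ψ => ψ P) this
    exact h7
  by_cases hcase : ∃ κ : τ →₀ ℕ, Finsupp.weight (fun a => w (e a)) κ < θ * D ∧
      MvPowerSeries.coeff κ (ev G) ≠ 0
  · exact Or.inl hcase
  push Not at hcase
  refine Or.inr (H ε (fun a => w (e a)) (fun a => hw _) hε hb1 hb2 ξ _ (by positivity) P ?_ h5.int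
    h5.deg h5.len ?_)
  · rintro rfl
    exact h2 (by simp)
  · intro μ hμ
    rw [← mul_assoc, div_mul_cancel₀ _ hck.ne']
    by_contra hlt
    push Not at hlt
    obtain ⟨u, hu⟩ := h3
    have h7 : MvPowerSeries.coeff μ (ev (rename e P)) = 0 := by
      rw [hu, MvPowerSeries.coeff_mul]
      refine Finset.sum_eq_zero fun q hq => ?_
      rw [hcase q.1 ?_, zero_mul]
      rw [← Finset.HasAntidiagonal.mem_antidiagonal.1 hq, map_add] at hlt
      have h8 : 0 ≤ Finsupp.weight (fun a => w (e a)) q.2 := by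
        rw [Finsupp.weight_apply]
        exact Finset.sum_nonneg fun s _ => nsmul_nonneg (hw0 _) _
      linarith
    rw [h6, coeff_coe] at h7
    exact mem_support_iff.1 hμ h7

end Pool.Agent.Lib.Common.ZeroLemma
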