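import Pool.Agent.Lib.Common.ZeroLemma.Fil

/-! Elimination of one variable by the resultant with the derivative. -/

namespace Pool.Agent.Lib.Common.ZeroLemma

open MvPolynomial Finset Pool.Agent.Lib.Common.Subspace

variable {σ : Type*} [DecidableEq σ]

/-- A polynomial seen as a polynomial in the variable `a`. -/
noncomputable def phi {R : Type*} [CommRing R] (a : σ) :
    MvPolynomial σ R →ₐ[R] Polynomial (MvPolynomial σ R) :=
  aeval (fun b => if b = a then Polynomial.X else Polynomial.C (X b))

section Phi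

variable {R : Type*} [CommRing R] (a : σ)

theorem phi_X_self : phi (R := R) a (X a) = Polynomial.X := by simp [phi]

theorem phi_X_ne {b : σ} (h : b ≠ a) : phi (R := R) a (X b) = Polynomial.C (X b) := by
  simp [phi, h]

theorem phi_C (c : R) : phi a (C c : MvPolynomial σ R) = Polynomial.C (C c) := by
  rw [phi, aeval_C]
  rfl

theorem phi_monomial (μ : σ →₀ ℕ) (c : R) :
    phi a (monomial μ c) = Polynomial.monomial (μ a) (monomial (μ.erase a) c) := by
  induction μ using Finsupp.induction_linear generalizing c with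
  | zero => simp
  | add f g hf hg =>
    have h1 : (monomial (f + g) c : MvPolynomial σ R) = monomial f c * monomial g 1 := by
      rw [monomial_mul, mul_one]
    rw [h1, map_mul, hf, hg, Polynomial.monomial_mul_monomial, monomial_mul, mul_one,
      Finsupp.erase_add, Finsupp.add_apply]
  | single b k =>
    have h1 : (monomial (Finsupp.single b k) c : MvPolynomial σ R) = C c * X b ^ k := by
      rw [X_pow_eq_monomial, C_mul_monomial, mul_one]
    rw [h1, map_mul, map_pow, phi_C]
    by_cases h : b = a
    · subst h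
      rw [phi_X_self, Finsupp.erase_single, Finsupp.single_eq_same, Polynomial.C_mul_X_pow_eq_monomial]
      rfl
    · rw [phi_X_ne a h, Finsupp.erase_single_ne (Ne.symm h), Finsupp.single_eq_of_ne (Ne.symm h),
        ← map_pow, ← map_mul, ← h1, Polynomial.monomial_zero_left]

theorem coeff_phi (P : MvPolynomial σ R) (k : ℕ) (ν : σ →₀ ℕ) :
    coeff ν ((phi a P).coeff k) = if ν a = 0 then coeff (ν + Finsupp.single a k) P else 0 := by
  induction P using MvPolynomial.induction_on' with
  | monomial μ c =>
    rw [phi_monomial, Polynomial.coeff_monomial, coeff_monomial]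
    by_cases h1 : μ a = k
    · rw [if_pos h1, coeff_monomial]
      by_cases h2 : μ.erase a = ν
      · rw [if_pos h2, if_pos (by rw [← h2]; simp), if_pos]
        rw [← h2, ← h1, Finsupp.erase_add_single]
      · rw [if_neg h2]
        split_ifs with h3 h4
        · exfalso
          apply h2
          rw [h4, Finsupp.erase_add, Finsupp.erase_single, add_zero,
            Finsupp.erase_of_notMem_support (by simpa using h3)]
        · rfl
        · rfl
    · rw [if_neg h1, coeff_zero]
      split_ifs with h3 h4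
      · exfalso
        apply h1
        rw [h4]
        simp [h3]
      · rfl
      · rfl
  | add p q hp hq =>
    rw [map_add, Polynomial.coeff_add, coeff_add, hp, hq, coeff_add]
    split_ifs <;> simp

theorem mem_support_phi {P : MvPolynomial σ R} {k : ℕ} {ν : σ →₀ ℕ} :
    ν ∈ ((phi a P).coeff k).support ↔ ν a = 0 ∧ ν + Finsupp.single a k ∈ P.support := by
  rw [mem_support_iff, mem_support_iff, coeff_phi]
  by_cases h : ν a = 0 <;> simp [h]

theorem le_natDegree_phi {P : MvPolynomial σ R} {μ : σ →₀ ℕ} (h : μ ∈ P.support) :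
    μ a ≤ (phi a P).natDegree := by
  refine Polynomial.le_natDegree_of_ne_zero (support_nonempty.1 ⟨μ.erase a, ?_⟩)
  rw [mem_support_phi, Finsupp.erase_add_single]
  exact ⟨by simp, h⟩

theorem exists_natDegree_phi {P : MvPolynomial σ R} (h : (phi a P).natDegree ≠ 0) :
    ∃ μ ∈ P.support, μ a = (phi a P).natDegree := by
  have h0 : phi a P ≠ 0 := by
    intro e
    simp [e] at h
  obtain ⟨ν, hν⟩ := support_nonempty.2 (Polynomial.leadingCoeff_ne_zero.2 h0)
  obtain ⟨h1, h2⟩ := (mem_support_phi a).1 hν
  exact ⟨_, h2, by simp [h1]⟩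

end Phi

theorem phi_sh {K : Type*} [Field K] [CharZero K] (a : σ) (ξ : σ → K) (P : MvPolynomial σ ℚ) :
    phi a (sh ξ P) = Polynomial.taylor (C (ξ a)) ((phi a P).map (sh ξ).toRingHom) := by
  induction P using MvPolynomial.induction_on with
  | C c => simp
  | add p q hp hq => simp only [map_add, Polynomial.map_add, hp, hq]
  | mul_X p t hp =>
    rw [map_mul, map_mul, map_mul, Polynomial.map_mul, Polynomial.taylor_mul, hp, sh_X, map_add,
      phi_C]
    congr 1
    by_cases h : t = a
    · subst h
      simp [phi_X_self]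
    · simp [phi_X_ne a h, sh_X]

theorem res_ne_zero (a : σ) (q : MvPolynomial σ ℚ) (hq : Irreducible q)
    (h : (phi a q).natDegree ≠ 0) :
    Polynomial.resultant (phi a q) (phi a q).derivative ≠ 0 := by
  let A := MvPolynomial {b // b ≠ a} ℚ
  let e : MvPolynomial σ ℚ ≃ₐ[ℚ] Polynomial A :=
    (renameEquiv ℚ (Equiv.optionSubtypeNe a).symm).trans (optionEquivLeft ℚ _)
  let ψ : A →+* MvPolynomial σ ℚ := (rename (Subtype.val : {b // b ≠ a} → σ)).toRingHom
  have hψ : Function.Injective ψ := rename_injective _ Subtype.val_injective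
  have h1 : ∀ P, phi a P = (e P).map ψ := by
    intro P
    induction P using MvPolynomial.induction_on with
    | C c =>
      have h1 : e (C c) = Polynomial.C (C c) := by
        show optionEquivLeft ℚ _ (rename _ (C c)) = _
        rw [rename_C, optionEquivLeft_C]
      rw [h1, phi_C, Polynomial.map_C]
      congr 1
      exact (rename_C _ _).symm
    | add p q hp hq => simp only [map_add, Polynomial.map_add, hp, hq]
    | mul_X p t hp =>
      rw [map_mul, map_mul, Polynomial.map_mul, hp]
      congr 1
      have h1 : e (X t) = optionEquivLeft ℚ _ (X ((Equiv.optionSubtypeNe a).symm t)) := by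
        show optionEquivLeft ℚ _ (rename _ (X t)) = _
        rw [rename_X]
      by_cases h : t = a
      · subst h
        rw [h1, Equiv.optionSubtypeNe_symm_self, optionEquivLeft_X_none, phi_X_self,
          Polynomial.map_X]
      · rw [h1, Equiv.optionSubtypeNe_symm_of_ne h, optionEquivLeft_X_some, phi_X_ne a h,
          Polynomial.map_C]
        congr 1
        exact (rename_X (Subtype.val : {b // b ≠ a} → σ) ⟨t, h⟩).symm
  have h2 : Irreducible (e q) := (MulEquiv.irreducible_iff e.toMulEquiv).2 hq
  rw [h1, Polynomial.natDegree_map_eq_of_injective hψ] at h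
  let F := FractionRing A
  have hF : Function.Injective (algebraMap A F) := IsFractionRing.injective A F
  have h3 : Irreducible ((e q).map (algebraMap A F)) :=
    ((h2.isPrimitive h).irreducible_iff_irreducible_map_fraction_map (K := F)).1 h2
  have : CharZero F := charZero_of_injective_algebraMap
    ((algebraMap ℚ F).injective)
  have h4 := Polynomial.resultant_ne_zero _ _ h3.separable
  rw [Polynomial.derivative_map, Polynomial.natDegree_map_eq_of_injective hF,
    Polynomial.natDegree_map_eq_of_injective hF, Polynomial.resultant_map_map] at h4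
  rw [h1, Polynomial.derivative_map, Polynomial.natDegree_map_eq_of_injective hψ,
    Polynomial.natDegree_map_eq_of_injective hψ, Polynomial.resultant_map_map]
  intro h5
  apply h4
  rw [(injective_iff_map_eq_zero ψ).1 hψ _ h5, map_zero]

theorem two_mul_sum_sub (N M : ℕ) (h : M ≤ N) :
    2 * ∑ i ∈ Finset.range N, (M - i) = M * (M + 1) := by
  induction N generalizing M with
  | zero =>
    obtain rfl : M = 0 := by omega
    simp
  | succ N ih =>
    cases M with
    | zero => simp
    | succ M =>
      rw [Finset.sum_range_succ']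
      simp only [Nat.add_sub_add_right, Nat.sub_zero]
      rw [mul_add, ih M (by omega)]
      ring

theorem sum_sub_real (N M : ℕ) (h : M ≤ N) :
    ∑ i : Fin N, ((M - i : ℕ) : ℝ) = M * (M + 1) / 2 := by
  rw [Fin.sum_univ_eq_sum_range (fun i => ((M - i : ℕ) : ℝ)) N]
  have h1 : ((2 * ∑ i ∈ Finset.range N, (M - i) : ℕ) : ℝ) = ((M * (M + 1) : ℕ) : ℝ) := by
    rw [two_mul_sum_sub N M h]
  push_cast [- Nat.cast_sub] at h1
  linarith

omit [DecidableEq σ] in
/-- Weighted order of a resultant. -/
theorem inF_resultant {K : Type*} [Field K] {ω : σ → ℝ} (w : ℝ) (hw : 0 ≤ w)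
    (f g : Polynomial (MvPolynomial σ K)) (m n A B : ℕ) (e : ℝ) (hA : A ≤ m) (hB : B ≤ n)
    (hf : ∀ k ≤ m, InF ω (w * (e + (A - k : ℕ))) (f.coeff k))
    (hg : ∀ k ≤ n, InF ω (w * (e + (B - k : ℕ))) (g.coeff k)) :
    InF ω (w * ((m + n) * e + A * B)) (Polynomial.resultant f g m n) := by
  have h := inF_det (ω := ω) (Polynomial.sylvester f g m n)
    (fun i => w * ((A + B - i : ℕ) : ℝ))
    (fun j => j.addCases (fun j₁ => w * (e - ((A - j₁ : ℕ) : ℝ)))
      (fun j₁ => w * (e - ((B - j₁ : ℕ) : ℝ)))) (by
    intro i j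
    refine Fin.addCases (fun j₁ => ?_) (fun j₁ => ?_) j
    · simp only [Polynomial.sylvester, Matrix.of_apply, Fin.addCases_left]
      split_ifs with h1
      · refine (hg (i - j₁) (by have := h1.2; omega)).mono ?_
        have h2 : (A + B - i : ℕ) ≤ (B - (i - j₁) : ℕ) + (A - j₁ : ℕ) := by
          have := h1.1
          omega
        have h3 : ((A + B - i : ℕ) : ℝ) ≤ (B - (i - j₁) : ℕ) + (A - j₁ : ℕ) := by
          exact_mod_cast h2
        nlinarith
      · exact inF_zero _
    · simp only [Polynomial.sylvester, Matrix.of_apply, Fin.addCases_right]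
      split_ifs with h1
      · refine (hf (i - j₁) (by have := h1.2; omega)).mono ?_
        have h2 : (A + B - i : ℕ) ≤ (A - (i - j₁) : ℕ) + (B - j₁ : ℕ) := by
          have := h1.1
          omega
        have h3 : ((A + B - i : ℕ) : ℝ) ≤ (A - (i - j₁) : ℕ) + (B - j₁ : ℕ) := by
          exact_mod_cast h2
        nlinarith
      · exact inF_zero _)
  refine h.mono (le_of_eq ?_)
  rw [Fin.sum_univ_add (f := fun j : Fin (m + n) => j.addCases
    (motive := fun _ => ℝ) (fun j₁ => w * (e - ((A - j₁ : ℕ) : ℝ)))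
      (fun j₁ => w * (e - ((B - j₁ : ℕ) : ℝ))))]
  simp only [Fin.addCases_left, Fin.addCases_right, ← Finset.mul_sum, Finset.sum_sub_distrib,
    Finset.sum_const, Finset.card_univ, Fintype.card_fin, nsmul_eq_mul]
  rw [sum_sub_real _ _ hA, sum_sub_real _ _ hB, sum_sub_real _ _ (add_le_add hA hB)]
  push_cast
  ring

theorem len_coeff_phi (a : σ) (P : MvPolynomial σ ℚ) (k : ℕ) :
    len ((phi a P).coeff k) ≤ len P := by
  refine len_le_of_injOn _ _ (fun ν => ν + Finsupp.single a k)
    (fun _ _ _ _ h => add_right_cancel h) fun ν hν => ?_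
  rw [coeff_phi, if_pos ((mem_support_phi a).1 hν).1]

theorem isInt_coeff_phi (a : σ) {P : MvPolynomial σ ℚ} (h : IsInt P) (k : ℕ) :
    IsInt ((phi a P).coeff k) := by
  intro ν
  rw [coeff_phi]
  split_ifs
  · exact h _
  · exact ⟨0, by simp⟩

theorem inF_coeff_phi {K : Type*} [Field K] {ω : σ → ℝ} (a : σ) {θ : ℝ} {P : MvPolynomial σ K}
    (h : InF ω θ P) (k : ℕ) : InF ω (θ - k * ω a) ((phi a P).coeff k) := by
  intro ν hν
  have := h _ ((mem_support_phi a).1 hν).2
  rw [map_add, Finsupp.weight_single, nsmul_eq_mul] at this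
  linarith

omit [DecidableEq σ] in
theorem len_natCast_mul (k : ℕ) (P : MvPolynomial σ ℚ) :
    len (P * ((k : MvPolynomial σ ℚ) + 1)) = (k + 1) * len P := by
  have h1 : P * ((k : MvPolynomial σ ℚ) + 1) = C ((k : ℚ) + 1) * P := by
    rw [mul_comm]; simp
  rw [h1, len, nrm_C_mul, Rat.AbsoluteValue.real_eq_abs, len]
  congr 1
  push_cast
  exact abs_of_nonneg (by positivity)

omit [DecidableEq σ] in
theorem support_mul_natCast {K : Type*} [Field K] (k : ℕ) (P : MvPolynomial σ K) :
    (P * ((k : MvPolynomial σ K) + 1)).support ⊆ P.support := by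
  have h1 : P * ((k : MvPolynomial σ K) + 1) = ((k : K) + 1) • P := by
    rw [mul_comm, smul_eq_C_mul]; simp
  rw [h1]
  exact support_smul

omit [DecidableEq σ] in
theorem sylvester_prop {R : Type*} [CommRing R] (f g : Polynomial R) (m n : ℕ) (p : R → Prop)
    (h0 : p 0) (hf : ∀ k, p (f.coeff k)) (hg : ∀ k ≤ n, p (g.coeff k)) (i j : Fin (m + n)) :
    p (Polynomial.sylvester f g m n i j) := by
  refine Fin.addCases (fun j₁ => ?_) (fun j₁ => ?_) j
  · simp only [Polynomial.sylvester, Matrix.of_apply, Fin.addCases_left]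
    split_ifs with h1
    · exact hg _ (by have := h1.2; omega)
    · exact h0
  · simp only [Polynomial.sylvester, Matrix.of_apply, Fin.addCases_right]
    split_ifs with h1
    · exact hf _
    · exact h0

theorem det_deg_le {n : Type*} [Fintype n] [DecidableEq n] (b : σ) (c t : ℝ)
    (A : Matrix n n (MvPolynomial σ ℚ)) (h : ∀ i j, ∀ μ ∈ (A i j).support, c * μ b ≤ t) :
    ∀ μ ∈ A.det.support, c * μ b ≤ Fintype.card n * t := by
  rw [← roth_inFil_single]
  have := inFil_det (ω := Pi.single b (-c)) A (fun _ => -t)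
    (fun i j => (roth_inFil_single b c t _).mpr (h i j))
  simpa using this

/-- The elimination step. -/
theorem res_step {K : Type*} [Field K] [CharZero K] (a : σ) (q : MvPolynomial σ ℚ)
    (hirr : Irreducible q) (hq : IsInt q) (ha : ∃ μ ∈ q.support, μ a ≠ 0)
    (ω : σ → ℝ) (hω : ∀ s, 0 ≤ ω s) (ε D θ : ℝ) (hε : 1 ≤ ε * ω a) (hε0 : 0 < ε) (hD : 0 < D)
    (hdeg : ∀ μ ∈ q.support, ∀ b, ω b * μ b ≤ D) (hlen : len q ≤ Real.exp (ε * D))
    (hθ : 0 < θ) (hθ1 : θ ≤ 1) (hbig : 4 * ω a ≤ θ * D) (ξ : σ → K)
    (hin : InF ω (θ * D) (sh ξ q)) :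
    ∃ D' : ℝ, 0 < D' ∧ ∃ R : MvPolynomial σ ℚ, R ≠ 0 ∧ IsInt R ∧ (∀ μ ∈ R.support, μ a = 0) ∧
      (∀ b, (∀ μ ∈ q.support, μ b = 0) → ∀ μ ∈ R.support, μ b = 0) ∧
      (∀ μ ∈ R.support, ∀ b, ω b * μ b ≤ D') ∧ len R ≤ Real.exp (4 * ε * D') ∧
      InF ω (θ ^ 2 / 8 * D') (sh ξ R) := by
  set f := phi a q with hf
  set p := f.natDegree with hp
  have hp1 : 1 ≤ p := by
    obtain ⟨μ, hμ, h1⟩ := ha
    have : μ a ≤ p := le_natDegree_phi a hμ
    omega
  have hp0 : (phi a q).natDegree ≠ 0 := by
    show p ≠ 0
    omega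
  have hωa : 0 < ω a := by
    by_contra h
    have : ε * ω a ≤ 0 := mul_nonpos_of_nonneg_of_nonpos hε0.le (not_lt.1 h)
    linarith
  have hpD : ω a * p ≤ D := by
    obtain ⟨μ, hμ, h1⟩ := exists_natDegree_phi a (P := q) hp0
    have := hdeg μ hμ a
    rwa [h1] at this
  have hpε : (p : ℝ) ≤ ε * D := by
    have h1 : (p : ℝ) * 1 ≤ p * (ε * ω a) := mul_le_mul_of_nonneg_left hε (by positivity)
    have h2 : ε * (ω a * p) ≤ ε * D := mul_le_mul_of_nonneg_left hpD hε0.le
    linarith
  have hp1' : (1 : ℝ) ≤ p := by exact_mod_cast hp1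
  have hdn : f.derivative.natDegree = p - 1 := Polynomial.natDegree_derivative _
  have hR : Polynomial.resultant f f.derivative =
      (Polynomial.sylvester f f.derivative p (p - 1)).det := by
    rw [Polynomial.resultant, hdn]
  have hsup : ∀ k, (f.derivative.coeff k).support ⊆ (f.coeff (k + 1)).support := by
    intro k
    rw [Polynomial.coeff_derivative]
    exact support_mul_natCast _ _
  have hcard : ((Fintype.card (Fin (p + (p - 1))) : ℕ) : ℝ) ≤ 2 * p := by
    rw [Fintype.card_fin]
    have : p + (p - 1) ≤ 2 * p := by omega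
    exact_mod_cast this
  refine ⟨2 * p * D, by positivity, Polynomial.resultant f f.derivative,
    res_ne_zero a q hirr hp0, ?_, ?_, ?_, ?_, ?_, ?_⟩
  · rw [hR]
    refine isInt_det _ (sylvester_prop _ _ _ _ IsInt isInt_zero (isInt_coeff_phi a hq) ?_)
    intro k _
    rw [Polynomial.coeff_derivative]
    refine (isInt_coeff_phi a hq _).mul (IsInt.add ?_ isInt_one)
    simpa using isInt_C (σ := σ) (k : ℤ)
  · rw [hR]
    refine roth_det_supp a _ (sylvester_prop _ _ _ _
      (fun P : MvPolynomial σ ℚ => ∀ μ ∈ P.support, μ a = 0)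
      (by simp) (fun k μ hμ => ((mem_support_phi a).1 hμ).1)
      fun k _ μ hμ => ((mem_support_phi a).1 (hsup k hμ)).1)
  · intro b hb
    have h1 : ∀ k, ∀ μ ∈ (f.coeff k).support, μ b = 0 := by
      intro k μ hμ
      have := hb _ ((mem_support_phi a).1 hμ).2
      rw [Finsupp.add_apply] at this
      omega
    rw [hR]
    exact roth_det_supp b _ (sylvester_prop _ _ _ _
      (fun P : MvPolynomial σ ℚ => ∀ μ ∈ P.support, μ b = 0)
      (by simp) h1 fun k _ μ hμ => h1 _ μ (hsup k hμ))
  · intro μ hμ b
    have h1 : ∀ k, ∀ μ ∈ (f.coeff k).support, ω b * μ b ≤ D := by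
      intro k μ hμ
      refine le_trans (mul_le_mul_of_nonneg_left ?_ (hω b)) (hdeg _ ((mem_support_phi a).1 hμ).2 b)
      rw [Finsupp.add_apply]
      exact_mod_cast Nat.le_add_right _ _
    rw [hR] at hμ
    refine (det_deg_le b (ω b) D _ (sylvester_prop _ _ _ _
      (fun P : MvPolynomial σ ℚ => ∀ μ ∈ P.support, ω b * μ b ≤ D) (by simp) h1
      fun k _ μ hμ => h1 _ μ (hsup k hμ)) μ hμ).trans ?_
    exact mul_le_mul_of_nonneg_right hcard hD.le
  · rw [hR]
    have hq0 := len_nonneg q
    have h1 := nrm_det_le (v := Rat.AbsoluteValue.real) (ρ := fun _ : σ => (1 : ℝ))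
      (fun _ => zero_le_one) (Polynomial.sylvester f f.derivative p (p - 1)) (p * len q)
      (sylvester_prop _ _ _ _ (fun P => len P ≤ p * len q) (by
        rw [len, nrm_zero]; positivity)
        (fun k => (len_coeff_phi a q k).trans (le_mul_of_one_le_left hq0 hp1')) (by
        intro k hk
        rw [Polynomial.coeff_derivative, len_natCast_mul]
        refine mul_le_mul ?_ (len_coeff_phi a q _) (len_nonneg _) (by positivity)
        have : k + 1 ≤ p := by omega
        exact_mod_cast this))
    refine le_trans h1 ?_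
    set N := Fintype.card (Fin (p + (p - 1)))
    have h2 : (p : ℝ) * len q ≤ Real.exp (2 * (ε * D)) := by
      have h3 : (p : ℝ) ≤ Real.exp (ε * D) := by
        have := Real.add_one_le_exp (ε * D)
        linarith
      rw [two_mul, Real.exp_add]
      exact mul_le_mul h3 hlen hq0 (Real.exp_nonneg _)
    have h4 : ((p : ℝ) * len q) ^ N ≤ Real.exp (N * (2 * (ε * D))) := by
      rw [Real.exp_nat_mul]
      exact pow_le_pow_left₀ (by positivity) h2 N
    refine (mul_le_mul (roth_factorial_le N) h4 (by positivity) (Real.exp_nonneg _)).trans ?_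
    rw [← Real.exp_add]
    refine Real.exp_le_exp.2 ?_
    have hN : (0 : ℝ) ≤ N := by positivity
    have h5 : 0 < ε * D := by positivity
    have h6 : (N : ℝ) - 1 + 2 * (ε * D) ≤ 4 * (ε * D) := by linarith
    calc (N : ℝ) * (N - 1) + N * (2 * (ε * D)) = N * ((N : ℝ) - 1 + 2 * (ε * D)) := by ring
      _ ≤ N * (4 * (ε * D)) := mul_le_mul_of_nonneg_left h6 hN
      _ ≤ (2 * p) * (4 * (ε * D)) := mul_le_mul_of_nonneg_right hcard (by positivity)
      _ = _ := by ring
  · set F := phi a (sh ξ q) with hF
    have hinj : Function.Injective (sh ξ).toRingHom := sh_injective ξ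
    have hFd : F.natDegree = p := by
      rw [hF, phi_sh, Polynomial.natDegree_taylor, Polynomial.natDegree_map_eq_of_injective hinj]
    have h1 : sh ξ (Polynomial.resultant f f.derivative) =
        Polynomial.resultant F F.derivative p (p - 1) := by
      have h2 : F.derivative = Polynomial.taylor (C (ξ a)) (f.derivative.map (sh ξ).toRingHom) := by
        rw [hF, phi_sh, Polynomial.taylor_apply, Polynomial.taylor_apply,
          Polynomial.derivative_comp, Polynomial.derivative_map]
        simp [hf]
      have h3 := Polynomial.resultant_taylor (f.map (sh ξ).toRingHom)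
        (f.derivative.map (sh ξ).toRingHom) (C (ξ a))
      rw [Polynomial.natDegree_taylor, Polynomial.natDegree_taylor,
        Polynomial.natDegree_map_eq_of_injective hinj,
        Polynomial.natDegree_map_eq_of_injective hinj, Polynomial.resultant_map_map, ← h2,
        hf, ← phi_sh, ← hf, ← hF, hdn] at h3
      rw [hdn]
      exact h3.symm
    rw [h1]
    set A := ⌊θ * D / ω a⌋₊ with hA
    have hA1 : (A : ℝ) * ω a ≤ θ * D := by
      have := Nat.floor_le (a := θ * D / ω a) (by positivity)
      rwa [le_div_iff₀ hωa] at this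
    have hA2 : θ * D < (A + 1) * ω a := by
      have := Nat.lt_floor_add_one (θ * D / ω a)
      rwa [div_lt_iff₀ hωa] at this
    have hA4 : 4 ≤ A := Nat.le_floor (by rw [le_div_iff₀ hωa]; exact_mod_cast hbig)
    have hc : ∀ k ≤ p, InF ω (ω a * (((A - p : ℕ) : ℝ) + (min A p - k : ℕ))) (F.coeff k) := by
      intro k hk
      by_cases h2 : k ≤ A
      · refine (inF_coeff_phi a hin k).mono ?_
        have h3 : (A - p : ℕ) + (min A p - k : ℕ) + k = A := by omega
        have h4 : ((A - p : ℕ) : ℝ) + (min A p - k : ℕ) + k = A := by exact_mod_cast h3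
        nlinarith
      · refine inF_of_nonpos hω ?_ _
        have h3 : A - p = 0 := by omega
        have h4 : min A p - k = 0 := by omega
        simp [h3, h4]
    have h5 := inF_resultant (ω := ω) (ω a) hωa.le F F.derivative p (p - 1) (min A p)
      (min A p - 1) ((A - p : ℕ) : ℝ) (min_le_right _ _) (by omega) hc (by
        intro k hk
        rw [Polynomial.coeff_derivative]
        have h6 : min A p - 1 - k = min A p - (k + 1) := by omega
        rw [h6]
        exact (hc (k + 1) (by omega)).of_support_subset (support_mul_natCast _ _))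
    refine h5.mono ?_
    have hA4' : (4 : ℝ) ≤ A := by exact_mod_cast hA4
    have h7 : θ * D ≤ 2 * (ω a * (A - 1)) := by nlinarith
    rcases le_total A p with h8 | h8
    · have h9 : A - p = 0 := by omega
      rw [h9, min_eq_left h8, Nat.cast_sub (by omega : 1 ≤ A)]
      push_cast
      have h10 : (θ * D) ^ 2 ≤ (2 * (ω a * (A - 1))) ^ 2 :=
        pow_le_pow_left₀ (by positivity) h7 2
      have h11 : ω a * (θ ^ 2 / 8 * (2 * p * D)) ≤ ω a * (ω a * (A * (A - 1))) := by
        have h12 : θ ^ 2 * D * (ω a * p) ≤ θ ^ 2 * D * D :=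
          mul_le_mul_of_nonneg_left hpD (by positivity)
        have h13 : ω a ^ 2 * ((A : ℝ) - 1) * (A - 1) ≤ ω a ^ 2 * (A - 1) * A :=
          mul_le_mul_of_nonneg_left (by linarith) (mul_nonneg (by positivity) (by linarith))
        nlinarith
      have := le_of_mul_le_mul_left h11 hωa
      linarith
    · rw [min_eq_right h8, Nat.cast_sub h8, Nat.cast_sub hp1]
      push_cast
      have h9 : (p : ℝ) ≤ A := by exact_mod_cast h8
      have h10 : (p : ℝ) * (A - 1) ≤ (p + (p - 1)) * (A - p) + p * (p - 1) := by nlinarith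
      have h11 : θ ^ 2 / 8 * (2 * p * D) ≤ p * (θ * D) / 2 := by
        have : θ ^ 2 ≤ θ := by nlinarith
        have h12 : 0 ≤ (p : ℝ) * D := by positivity
        nlinarith
      have h12 : (p : ℝ) * (θ * D) ≤ p * (2 * (ω a * (A - 1))) :=
        mul_le_mul_of_nonneg_left h7 (by positivity)
      have h13 := mul_le_mul_of_nonneg_left h10 hωa.le
      nlinarith

end Pool.Agent.Lib.Common.ZeroLemma
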