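import Pool.Agent.Lib.Common.ZeroLemma.Res

/-! Elimination of a block of variables of bounded degree by a generalized Wronskian. -/

namespace Pool.Agent.Lib.Common.ZeroLemma

open MvPolynomial Finset Pool.Agent.Lib.Common.Subspace

variable {σ : Type*} [DecidableEq σ]

/-- The coefficient of the monomial `α` in the variables satisfying `p`. -/
noncomputable def fa (p : σ → Prop) [DecidablePred p] (q : MvPolynomial σ ℚ) (α : σ →₀ ℕ) :
    MvPolynomial σ ℚ :=
  ∑ ν ∈ q.support.filter (fun ν => ν.filter p = α),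
    monomial (ν.filter fun b => ¬ p b) (coeff ν q)

variable (p : σ → Prop) [DecidablePred p]

omit [DecidableEq σ] in
theorem filter_add_of (ρ α : σ →₀ ℕ) (hρ : ∀ b, p b → ρ b = 0) (hα : ∀ b, ¬ p b → α b = 0) :
    (ρ + α).filter p = α ∧ (ρ + α).filter (fun b => ¬ p b) = ρ := by
  constructor
  · ext b
    by_cases h : p b <;> simp [h, hρ, hα]
  · ext b
    by_cases h : p b <;> simp [h, hρ, hα]

theorem coeff_fa (q : MvPolynomial σ ℚ) (α : σ →₀ ℕ) (hα : ∀ b, ¬ p b → α b = 0)
    (ρ : σ →₀ ℕ) (hρ : ∀ b, p b → ρ b = 0) : coeff ρ (fa p q α) = coeff (ρ + α) q := by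
  obtain ⟨h1, h2⟩ := filter_add_of p ρ α hρ hα
  rw [fa, coeff_sum, Finset.sum_eq_single (ρ + α)]
  · rw [h2, coeff_monomial, if_pos rfl]
  · intro ν hν hne
    rw [coeff_monomial, if_neg]
    intro e
    apply hne
    rw [← e, ← (Finset.mem_filter.1 hν).2, add_comm, Finsupp.filter_add_filter_not]
  · intro h
    rw [coeff_monomial, h2, if_pos rfl]
    by_contra h3
    exact h (Finset.mem_filter.2 ⟨mem_support_iff.2 h3, h1⟩)

theorem mem_support_fa {q : MvPolynomial σ ℚ} {α ρ : σ →₀ ℕ} (h : ρ ∈ (fa p q α).support) :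
    (∀ b, p b → ρ b = 0) ∧ (∀ b, ¬ p b → α b = 0) ∧ ρ + α ∈ q.support := by
  obtain ⟨ν, hν, h2⟩ := Finset.mem_biUnion.mp (support_sum h)
  have h3 := Finset.mem_singleton.mp (support_monomial_subset h2)
  obtain ⟨h4, h5⟩ := Finset.mem_filter.1 hν
  refine ⟨fun b hb => ?_, fun b hb => ?_, ?_⟩
  · rw [h3]; simp [hb]
  · rw [← h5]; simp [hb]
  · rwa [h3, ← h5, add_comm, Finsupp.filter_add_filter_not]

theorem len_fa_le (q : MvPolynomial σ ℚ) (α : σ →₀ ℕ) : len (fa p q α) ≤ len q := by
  refine len_le_of_injOn _ _ (fun ν => ν + α) (fun _ _ _ _ h => add_right_cancel h) fun ν hν => ?_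
  obtain ⟨h1, h2, -⟩ := mem_support_fa p hν
  exact coeff_fa p q α h2 ν h1

theorem isInt_fa {q : MvPolynomial σ ℚ} (h : IsInt q) (α : σ →₀ ℕ) : IsInt (fa p q α) := by
  refine isInt_sum _ _ fun ν _ => ?_
  obtain ⟨z, hz⟩ := h ν
  rw [hz]
  exact isInt_monomial _ _

section Kill

variable {K : Type*} [Field K] [CharZero K]

/-- Setting the variables satisfying `p` to zero. -/
noncomputable def kill : MvPolynomial σ K →ₐ[K] MvPolynomial σ K :=
  aeval (fun b => if p b then 0 else X b)

omit [DecidableEq σ] [CharZero K] in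
theorem InF.kill {ω : σ → ℝ} {θ : ℝ} {P : MvPolynomial σ K} (h : InF ω θ P) :
    InF ω θ (kill p P) := by
  refine h.aeval fun s => ?_
  split_ifs
  · exact inF_zero _
  · exact inF_X s

omit [DecidableEq σ] in
theorem kill_sh_monomial (ξ : σ → K) (ν : σ →₀ ℕ) (c : ℚ) :
    kill p (sh ξ (monomial ν c)) = C (aeval ξ (monomial (ν.filter p) (1 : ℚ))) *
      sh ξ (monomial (ν.filter fun b => ¬ p b) c) := by
  induction ν using Finsupp.induction_linear generalizing c with
  | zero => simp [kill, Finsupp.filter_zero]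
  | add f g hf hg =>
    have h1 : ∀ (f g : σ →₀ ℕ) (c : ℚ),
        (monomial (f + g) c : MvPolynomial σ ℚ) = monomial f c * monomial g 1 := by
      intro f g c
      rw [monomial_mul, mul_one]
    rw [h1, map_mul, map_mul, hf, hg, Finsupp.filter_add, Finsupp.filter_add, h1, h1 _ _ c]
    simp only [map_mul]
    ring
  | single b k =>
    have h1 : ∀ c : ℚ, (monomial (Finsupp.single b k) c : MvPolynomial σ ℚ) = C c * X b ^ k := by
      intro c
      rw [X_pow_eq_monomial, C_mul_monomial, mul_one]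
    by_cases h : p b
    · rw [Finsupp.filter_single_of_pos p h, Finsupp.filter_single_of_neg _ (by simpa using h),
        h1, h1]
      simp [kill, sh_X, h, mul_comm]
    · rw [Finsupp.filter_single_of_neg p h, Finsupp.filter_single_of_pos _ (by simpa using h),
        h1]
      simp [kill, sh_X, h]

theorem kill_sh_hd (ξ : σ → K) (q : MvPolynomial σ ℚ) (μ : σ →₀ ℕ) (hμ : ∀ b, p b → μ b = 0) :
    kill p (sh ξ (hd μ q)) = ∑ α ∈ q.support.image (Finsupp.filter p),
      C (aeval ξ (monomial α (1 : ℚ))) * sh ξ (hd μ (fa p q α)) := by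
  conv_lhs => rw [q.as_sum]
  rw [map_sum, map_sum, map_sum, ← Finset.sum_fiberwise_of_maps_to (s := q.support)
    (t := q.support.image (Finsupp.filter p)) (g := Finsupp.filter p)
    (fun ν hν => Finset.mem_image_of_mem _ hν)]
  refine Finset.sum_congr rfl fun α _ => ?_
  rw [fa, map_sum, map_sum, Finset.mul_sum]
  refine Finset.sum_congr rfl fun ν hν => ?_
  rw [hd_monomial, hd_monomial, kill_sh_monomial, (Finset.mem_filter.1 hν).2]
  have : bin μ ν = bin μ (ν.filter fun b => ¬ p b) := by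
    refine Finset.prod_congr rfl fun s hs => ?_
    have h1 : ¬ p s := fun h => Finsupp.mem_support_iff.1 hs (hμ s h)
    simp only [Finsupp.filter_apply_pos (fun b => ¬ p b) ν h1]
  rw [this]

theorem aeval_fa_not (ξ : σ → K) (q : MvPolynomial σ ℚ) (ρ : σ →₀ ℕ) (hρ : ∀ b, p b → ρ b = 0) :
    aeval ξ (fa (fun b => ¬ p b) q ρ) = ∑ α ∈ q.support.image (Finsupp.filter p),
      aeval ξ (monomial α (1 : ℚ)) * algebraMap ℚ K (coeff ρ (fa p q α)) := by
  have hsub : (fa (fun b => ¬ p b) q ρ).support ⊆ q.support.image (Finsupp.filter p) := by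
    intro α hα
    obtain ⟨h1, -, h3⟩ := mem_support_fa _ hα
    refine Finset.mem_image.2 ⟨_, h3, ?_⟩
    rw [add_comm]
    exact (filter_add_of p ρ α hρ h1).1
  conv_lhs => rw [(fa (fun b => ¬ p b) q ρ).as_sum]
  rw [Finset.sum_subset hsub (fun α _ h => by rw [notMem_support_iff.1 h, map_zero]), map_sum]
  refine Finset.sum_congr rfl fun α hα => ?_
  have h1 : ∀ b, ¬ p b → α b = 0 := by
    obtain ⟨ν, -, rfl⟩ := Finset.mem_image.1 hα
    intro b hb
    simp [hb]
  rw [coeff_fa p q α h1 ρ hρ, coeff_fa _ q ρ (by simpa using hρ) α h1, add_comm α ρ,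
    aeval_monomial, aeval_monomial, map_one, one_mul, mul_comm]

end Kill

theorem card_image_filter_le [Fintype σ] (q : MvPolynomial σ ℚ) (B : ℕ)
    (hB : ∀ μ ∈ q.support, ∀ b, p b → μ b ≤ B) :
    (q.support.image (Finsupp.filter p)).card ≤ (B + 1) ^ Fintype.card σ := by
  have h1 : (Fintype.piFinset fun _ : σ => Finset.range (B + 1)).card =
      (B + 1) ^ Fintype.card σ := by simp
  rw [← h1]
  refine Finset.card_le_card_of_injOn (fun α => ⇑α) ?_ fun _ _ _ _ h => DFunLike.coe_injective h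
  intro α hα
  obtain ⟨ν, hν, rfl⟩ := Finset.mem_image.1 (Finset.mem_coe.1 hα)
  refine Finset.mem_coe.2 (Fintype.mem_piFinset.2 fun b => Finset.mem_range.2 ?_)
  by_cases h : p b
  · simpa [Finsupp.filter_apply, h, Nat.lt_succ_iff] using hB ν hν b h
  · simp [h]

/-- The Wronskian step. -/
theorem wr_step [Fintype σ] {K : Type*} [Field K] [CharZero K] (q : MvPolynomial σ ℚ)
    (hq0 : q ≠ 0) (hq : IsInt q) (B : ℕ) (hB : ∀ μ ∈ q.support, ∀ b, p b → μ b ≤ B)
    (ω : σ → ℝ) (ε D θ η : ℝ) (hε : ∀ b, 1 ≤ ε * ω b) (hε0 : 0 < ε) (hD : 0 < D)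
    (hεD : 1 ≤ ε * D) (hdeg : ∀ μ ∈ q.support, ∀ b, ω b * μ b ≤ D)
    (hlen : len q ≤ Real.exp (ε * D)) (hη0 : 0 ≤ η)
    (hη : ∀ b, ¬ p b → (∃ μ ∈ q.support, μ b ≠ 0) → ω b ≤ η * D)
    (r : ℕ) (hr : r = (B + 1) ^ Fintype.card σ) (hrη : r * η ≤ θ / 2) (ξ : σ → K)
    (hin : InF ω (θ * D) (sh ξ q)) :
    (∃ g : MvPolynomial σ ℚ, g ≠ 0 ∧ IsInt g ∧
      (∀ μ ∈ g.support, ∀ b, (¬ p b → μ b = 0) ∧ μ b ≤ B) ∧ len g ≤ len q ∧ aeval ξ g = 0) ∨
    ∃ R : MvPolynomial σ ℚ, R ≠ 0 ∧ IsInt R ∧ (∀ b, p b → ∀ μ ∈ R.support, μ b = 0) ∧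
      (∀ b, (∀ μ ∈ q.support, μ b = 0) → ∀ μ ∈ R.support, μ b = 0) ∧
      (∀ μ ∈ R.support, ∀ b, ω b * μ b ≤ r * D) ∧
      len R ≤ Real.exp ((r + Fintype.card σ + 1) * ε * (r * D)) ∧
      InF ω (θ / 2 * D) (sh ξ R) := by
  have hω : ∀ b, 0 < ω b := by
    intro b
    by_contra h
    have : ε * ω b ≤ 0 := mul_nonpos_of_nonneg_of_nonpos hε0.le (not_lt.1 h)
    linarith [hε b]
  set S := q.support.image (Finsupp.filter p) with hS
  have hSr : S.card ≤ r := hr ▸ card_image_filter_le p q B hB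
  obtain ⟨κ, a, ha, hsp, hli⟩ := exists_linearIndependent' ℚ (fun α : S => fa p q α)
  have : Finite κ := Finite.of_injective a ha
  have := Fintype.ofFinite κ
  set n := Fintype.card κ with hn
  have hnr : n ≤ r := by
    refine le_trans ?_ hSr
    simpa using Fintype.card_le_of_injective a ha
  let e := (Fintype.equivFin κ).symm
  let f : Fin n → MvPolynomial σ ℚ := fun j => fa p q (a (e j))
  have hf : LinearIndependent ℚ f := hli.comp e e.injective
  have hc : ∀ α : S, ∃ c : Fin n → ℚ, ∑ j, c j • f j = fa p q α := by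
    intro α
    rw [← Submodule.mem_span_range_iff_exists_fun]
    have h1 : Set.range f = Set.range ((fun α : S => fa p q α) ∘ a) :=
      e.surjective.range_comp ((fun α : S => fa p q α) ∘ a)
    rw [h1, hsp]
    exact Submodule.subset_span ⟨α, rfl⟩
  choose c hc using hc
  let lam : Fin n → K := fun j => ∑ α : S, aeval ξ (monomial α.1 (1 : ℚ)) * algebraMap ℚ K (c α j)
  by_cases hl : ∀ j, lam j = 0
  · left
    obtain ⟨ν, hν⟩ := support_nonempty.2 hq0
    have hρ : ∀ b, p b → (ν.filter fun b => ¬ p b) b = 0 := by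
      intro b hb
      simp [hb]
    refine ⟨fa (fun b => ¬ p b) q (ν.filter fun b => ¬ p b), ?_, isInt_fa _ hq _, ?_,
      len_fa_le _ _ _, ?_⟩
    · refine support_nonempty.1 ⟨ν.filter p, mem_support_iff.2 ?_⟩
      rw [coeff_fa _ q _ (by simpa using hρ) _
        (fun b hb => by simp [hb]), Finsupp.filter_add_filter_not]
      exact mem_support_iff.1 hν
    · intro μ hμ b
      obtain ⟨h1, -, h3⟩ := mem_support_fa _ hμ
      refine ⟨h1 b, ?_⟩
      by_cases hb : p b
      · exact le_trans (Nat.le_add_right _ _) (hB _ h3 b hb)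
      · rw [h1 b hb]; exact Nat.zero_le _
    · rw [aeval_fa_not p ξ q _ hρ, ← hS, ← Finset.sum_coe_sort S]
      have h1 : ∀ α : S, aeval ξ (monomial α.1 (1 : ℚ)) *
          algebraMap ℚ K (coeff (ν.filter fun b => ¬ p b) (fa p q α)) =
          ∑ j, aeval ξ (monomial α.1 (1 : ℚ)) * algebraMap ℚ K (c α j) *
            algebraMap ℚ K (coeff (ν.filter fun b => ¬ p b) (f j)) := by
        intro α
        rw [← hc α, coeff_sum, map_sum, Finset.mul_sum]
        refine Finset.sum_congr rfl fun j _ => ?_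
        rw [coeff_smul, smul_eq_mul, map_mul, mul_assoc]
      rw [Finset.sum_congr rfl fun α _ => h1 α, Finset.sum_comm]
      refine Finset.sum_eq_zero fun j _ => ?_
      rw [← Finset.sum_mul]
      exact mul_eq_zero_of_left (hl j) _
  · right
    push Not at hl
    obtain ⟨j₀, hj₀⟩ := hl
    obtain ⟨μ, hμ, hW⟩ := exists_hd_det_ne_zero n f hf
    have hfs : ∀ j, ∀ ν ∈ (f j).support, (∀ b, p b → ν b = 0) ∧ ∃ ν' ∈ q.support, ν ≤ ν' := by
      intro j ν hν
      obtain ⟨h1, -, h3⟩ := mem_support_fa p hν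
      exact ⟨h1, _, h3, le_self_add⟩
    have hz : ∀ b, (∀ ν ∈ q.support, ν b = 0) → ∀ j, ∀ ν ∈ (f j).support, ν b = 0 := by
      intro b hb j ν hν
      obtain ⟨-, ν', h1, h2⟩ := hfs j ν hν
      have := h2 b
      rw [hb ν' h1] at this
      omega
    have hr' : (n : ℝ) ≤ r := by exact_mod_cast hnr
    have hn0 : (0 : ℝ) ≤ n := by positivity
    refine ⟨_, hW, isInt_det _ fun i j => (isInt_fa p hq _).hd _, ?_, ?_, ?_, ?_, ?_⟩
    · intro b hb
      exact roth_det_supp b _ fun i j ν hν => (hfs j ν (support_hd_subset _ _ hν)).1 b hb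
    · intro b hb
      exact roth_det_supp b _ fun i j ν hν => hz b hb j ν (support_hd_subset _ _ hν)
    · intro ν hν b
      refine (det_deg_le b (ω b) D _ (fun i j ν hν => ?_) ν hν).trans ?_
      · obtain ⟨-, ν', h1, h2⟩ := hfs j ν (support_hd_subset _ _ hν)
        refine le_trans (mul_le_mul_of_nonneg_left ?_ (hω b).le) (hdeg ν' h1 b)
        exact_mod_cast h2 b
      · rw [Fintype.card_fin]
        exact mul_le_mul_of_nonneg_right hr' hD.le
    · set N : ℝ := Fintype.card σ * (ε * D) with hN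
      have hN0 : 0 ≤ N := by positivity
      have h1 : ∀ i j, len (hd (μ i) (f j)) ≤ Real.exp (N + ε * D) := by
        intro i j
        refine (len_hd_le (μ i) (f j) N fun ν hν => ?_).trans ?_
        · obtain ⟨-, ν', h1, h2⟩ := hfs j ν hν
          rw [Finsupp.degree_eq_sum, hN]
          push_cast
          refine (Finset.sum_le_sum (g := fun _ => ε * D) fun b _ => ?_).trans (by simp)
          have h3 : (ν b : ℝ) ≤ ν' b := by exact_mod_cast h2 b
          have h4 : (ν' b : ℝ) * 1 ≤ ν' b * (ε * ω b) :=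
            mul_le_mul_of_nonneg_left (hε b) (by positivity)
          have h5 := mul_le_mul_of_nonneg_left (hdeg ν' h1 b) hε0.le
          linarith
        · rw [Real.exp_add]
          refine mul_le_mul ?_ ((len_fa_le p q _).trans hlen) (len_nonneg _) (Real.exp_nonneg _)
          rw [← Real.exp_one_rpow]
          refine Real.rpow_le_rpow (by norm_num) ?_ hN0
          have := Real.add_one_le_exp 1
          linarith
      have h2 := nrm_det_le (v := Rat.AbsoluteValue.real) (ρ := fun _ : σ => (1 : ℝ))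
        (fun _ => zero_le_one) (Matrix.of fun i j => hd (μ i) (f j)) _ h1
      refine le_trans h2 ?_
      rw [Fintype.card_fin, ← Real.exp_nat_mul]
      refine (mul_le_mul_of_nonneg_right (roth_factorial_le n) (Real.exp_nonneg _)).trans ?_
      rw [← Real.exp_add]
      refine Real.exp_le_exp.2 ?_
      have h3 : (n : ℝ) - 1 ≤ r * (ε * D) := by nlinarith
      have h4 : (n : ℝ) - 1 + (N + ε * D) ≤ (r + Fintype.card σ + 1) * (ε * D) := by
        rw [hN]; linarith
      calc (n : ℝ) * (n - 1) + n * (N + ε * D) = n * ((n : ℝ) - 1 + (N + ε * D)) := by ring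
        _ ≤ n * ((r + Fintype.card σ + 1) * (ε * D)) := mul_le_mul_of_nonneg_left h4 hn0
        _ ≤ r * ((r + Fintype.card σ + 1) * (ε * D)) :=
          mul_le_mul_of_nonneg_right hr' (by positivity)
        _ = _ := by ring
    · have hμp : ∀ i b, p b → μ i b = 0 := fun i b hb =>
        roth_row_supp b μ f (fun l ν hν => (hfs l ν hν).1 b hb) hW i
      have hwt : ∀ i, Finsupp.weight ω (μ i) ≤ θ / 2 * D := by
        intro i
        have h1 : Finsupp.weight ω (μ i) ≤ (μ i).degree * (η * D) := by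
          rw [Finsupp.weight_apply, Finsupp.degree_apply, Finsupp.sum]
          push_cast
          rw [Finset.sum_mul]
          refine Finset.sum_le_sum fun b hb => ?_
          rw [nsmul_eq_mul]
          refine mul_le_mul_of_nonneg_left (hη b (fun h => ?_) ?_) (by positivity)
          · exact Finsupp.mem_support_iff.1 hb (hμp i b h)
          · by_contra h
            push Not at h
            exact Finsupp.mem_support_iff.1 hb (roth_row_supp b μ f (hz b h) hW i)
        have h2 : ((μ i).degree : ℝ) ≤ r := by exact_mod_cast ((hμ i).le.trans hnr)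
        have h3 : ((μ i).degree : ℝ) * (η * D) ≤ r * (η * D) :=
          mul_le_mul_of_nonneg_right h2 (by positivity)
        nlinarith
      let M : Matrix (Fin n) (Fin n) (MvPolynomial σ K) := fun i j => sh ξ (hd (μ i) (f j))
      have h1 : sh ξ (Matrix.of fun i j => hd (μ i) (f j)).det = M.det := by
        rw [AlgHom.map_det]
        rfl
      rw [h1]
      refine InF.of_C_mul hj₀ ?_
      have h2 := Matrix.det_updateCol_sum M j₀ (fun j => C (lam j))
      rw [smul_eq_mul] at h2
      rw [← h2]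
      have h3 : ∀ i, ∑ j, (C (lam j) : MvPolynomial σ K) • M i j = kill p (sh ξ (hd (μ i) q)) := by
        intro i
        rw [kill_sh_hd p ξ q (μ i) (hμp i), ← hS, ← Finset.sum_coe_sort S]
        simp only [lam, map_sum, smul_eq_mul, Finset.sum_mul]
        rw [Finset.sum_comm]
        refine Finset.sum_congr rfl fun α _ => ?_
        rw [← hc α, map_sum, map_sum, Finset.mul_sum]
        refine Finset.sum_congr rfl fun j _ => ?_
        rw [map_smul, map_smul, map_mul, mul_assoc, Algebra.smul_def]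
        rfl
      have h4 := inF_det (ω := ω) (M.updateCol j₀ fun k => ∑ i, C (lam i) • M k i) (fun _ => 0)
        (fun j => if j = j₀ then θ / 2 * D else 0) (by
          intro i j
          by_cases hj : j = j₀
          · subst hj
            rw [Matrix.updateCol_self, h3, if_pos rfl]
            refine ((inF_sh_hd (fun b => (hω b).le) ξ hin (μ i)).kill p).mono ?_
            linarith [hwt i]
          · rw [if_neg hj]
            exact inF_of_nonpos (fun b => (hω b).le) (by simp) _)
      simpa using h4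

end Pool.Agent.Lib.Common.ZeroLemma
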